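import Pool.Agent.Lib.MP_dd84fd_nt.L2G.ChDefs
import Pool.Agent.Lib.MP_dd84fd_nt.E2.Defs
import Pool.Agent.Lib.MP_dd84fd_nt.En.Sing

/-! Abel summation in the window length: unweighted representations from log-weighted windows. -/

set_option autoImplicit false

namespace Pool.MP_dd84fd_nt.UM

open Finset Pool.MP_67663b_nt.Odd Pool.MP_dd84fd_nt Pool.MP_dd84fd_nt.L2G

/-- `1 / log n` for `n ≥ 2` -/
noncomputable def dl (n : ℕ) : ℝ := if 2 ≤ n then 1 / Real.log n else 0

/-- ramp from `0` at `H` to `1` at `2 H` -/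
noncomputable def ph (H k : ℕ) : ℝ := max 0 (min 1 (((k : ℝ) - H) / H))

/-- `log n` if `n` is prime, `0` otherwise -/
noncomputable def lq (n : ℕ) : ℝ := if n.Prime then Real.log n else 0

/-- smooth weight -/
noncomputable def om (H n m : ℕ) : ℝ := dl m * dl (n - m) * (ph H m * ph H (n - m))

private theorem ab_log2 (k : ℕ) (hk : 2 ≤ k) : 0.69 ≤ Real.log k := by
  have h1 : Real.log 2 ≤ Real.log k := Real.log_le_log (by norm_num) (by exact_mod_cast hk)
  linarith [Real.log_two_gt_d9]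

theorem dl_nonneg (n : ℕ) : 0 ≤ dl n := by
  unfold dl
  split_ifs with h
  · have := ab_log2 n h
    positivity
  · exact le_rfl

theorem dl_le (n : ℕ) : dl n ≤ 3 / 2 := by
  unfold dl
  split_ifs with h
  · have := ab_log2 n h
    rw [div_le_iff₀ (by linarith)]
    linarith
  · norm_num

private theorem dl_sub (k : ℕ) (hk : 2 ≤ k) : |dl k - dl (k + 1)| ≤ 3 / k := by
  have h1 := ab_log2 k hk
  have h2 := ab_log2 (k + 1) (by omega)
  have hk0 : (0 : ℝ) < k := by exact_mod_cast (by omega : 0 < k)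
  unfold dl
  rw [if_pos hk, if_pos (by omega : 2 ≤ k + 1)]
  have h3 : Real.log ((k + 1 : ℕ) : ℝ) - Real.log k ≤ 1 / k := by
    rw [← Real.log_div (by positivity) (by positivity)]
    have h4 : (((k + 1 : ℕ) : ℝ) / k) = 1 + 1 / k := by
      push_cast
      field_simp
    rw [h4]
    have := Real.log_le_sub_one_of_pos (by positivity : (0 : ℝ) < 1 + 1 / k)
    linarith
  have h5 : 0 ≤ Real.log ((k + 1 : ℕ) : ℝ) - Real.log k := by
    have := Real.log_le_log hk0 (by push_cast; linarith : (k : ℝ) ≤ ((k + 1 : ℕ) : ℝ))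
    linarith
  have h6 : 1 / Real.log k - 1 / Real.log ((k + 1 : ℕ) : ℝ) =
      (Real.log ((k + 1 : ℕ) : ℝ) - Real.log k) / (Real.log k * Real.log ((k + 1 : ℕ) : ℝ)) := by
    rw [div_sub_div _ _ (by linarith) (by linarith)]
    ring
  rw [h6, abs_of_nonneg (div_nonneg h5 (by nlinarith))]
  have h7 : 1 / 3 ≤ Real.log k * Real.log ((k + 1 : ℕ) : ℝ) := by nlinarith
  rw [div_le_iff₀ (by linarith)]
  calc Real.log ((k + 1 : ℕ) : ℝ) - Real.log k ≤ 1 / k := h3
    _ = 3 / k * (1 / 3) := by ring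
    _ ≤ 3 / k * (Real.log k * Real.log ((k + 1 : ℕ) : ℝ)) :=
        mul_le_mul_of_nonneg_left h7 (by positivity)

theorem ph_nonneg (H k : ℕ) : 0 ≤ ph H k := le_max_left _ _

theorem ph_le_one (H k : ℕ) : ph H k ≤ 1 := max_le zero_le_one (min_le_left _ _)

theorem ph_zero (H k : ℕ) (h : k ≤ H) : ph H k = 0 := by
  unfold ph
  have h1 : ((k : ℝ) - H) / H ≤ 0 := by
    apply div_nonpos_of_nonpos_of_nonneg
    · have : (k : ℝ) ≤ H := by exact_mod_cast h
      linarith
    · positivity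
  exact max_eq_left ((min_le_right _ _).trans h1)

theorem ph_one (H k : ℕ) (hH : 1 ≤ H) (h : 2 * H ≤ k) : ph H k = 1 := by
  unfold ph
  have hH0 : (0 : ℝ) < H := by exact_mod_cast hH
  have h1 : 1 ≤ ((k : ℝ) - H) / H := by
    rw [le_div_iff₀ hH0]
    have : (2 : ℝ) * H ≤ k := by exact_mod_cast h
    linarith
  rw [min_eq_left h1, max_eq_right zero_le_one]

private theorem ph_sub (H k : ℕ) (hH : 1 ≤ H) : |ph H (k + 1) - ph H k| ≤ 1 / H := by
  have hH0 : (0 : ℝ) < H := by exact_mod_cast hH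
  unfold ph
  refine (abs_max_sub_max_le_max _ _ _ _).trans ?_
  rw [sub_self, abs_zero]
  refine max_le (by positivity) ?_
  refine (abs_min_sub_min_le_max _ _ _ _).trans ?_
  rw [sub_self, abs_zero]
  refine max_le (by positivity) ?_
  have h1 : (((k + 1 : ℕ) : ℝ) - H) / H - ((k : ℝ) - H) / H = 1 / H := by
    push_cast
    ring
  rw [h1, abs_of_nonneg (by positivity)]

private theorem om_symm (H n m : ℕ) (hm : m ≤ n) : om H n (n - m) = om H n m := by
  unfold om
  rw [Nat.sub_sub_self hm]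
  ring

/-- symmetric Abel summation -/
private theorem abel_sym (n h : ℕ) (hn : n = 2 * h) (hh : 1 ≤ h) (w f : ℕ → ℝ)
    (hw : ∀ m, m ≤ n → w (n - m) = w m) (N : ℕ) (hN : h ≤ N) (hNn : N ≤ n - 1) :
    ∑ m ∈ Icc (n - N) N, w m * f m =
      ∑ Y ∈ Ico h N, (w Y - w (Y + 1)) * ∑ m ∈ Icc (n - Y) Y, f m +
        w N * ∑ m ∈ Icc (n - N) N, f m := by
  induction N, hN using Nat.le_induction with
  | base =>
    have e : n - h = h := by omega
    rw [e, Ico_self, sum_empty, zero_add, Icc_self, sum_singleton, sum_singleton]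
  | succ N hN ih =>
    have ih' := ih (by omega)
    have hs : Icc (n - (N + 1)) (N + 1) =
        insert (n - (N + 1)) (insert (N + 1) (Icc (n - N) N)) := by
      ext m
      simp only [mem_insert, mem_Icc]
      omega
    have hg : ∀ F : ℕ → ℝ, ∑ m ∈ Icc (n - (N + 1)) (N + 1), F m =
        F (n - (N + 1)) + (F (N + 1) + ∑ m ∈ Icc (n - N) N, F m) := by
      intro F
      rw [hs, sum_insert, sum_insert]
      · rw [mem_Icc]; omega
      · simp only [mem_insert, mem_Icc]; omega
    rw [hg, hg, Finset.sum_Ico_succ_top hN, ih', hw (N + 1) (by omega)]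
    ring

/-- increments of the weight -/
private theorem om_sub (H n Y : ℕ) (hH : 2 ≤ H) (hn : 4 * H ≤ n) (hY : n / 2 ≤ Y)
    (hY2 : Y < n - H) : |om H n Y - om H n (Y + 1)| ≤ 12 / H := by
  have hH0 : (0 : ℝ) < H := by exact_mod_cast (by omega : 0 < H)
  obtain ⟨k, hk⟩ : ∃ k, k = n - (Y + 1) := ⟨_, rfl⟩
  have hkH : H ≤ k := by omega
  have e1 : n - Y = k + 1 := by omega
  have hYH : 2 * H ≤ Y := by omega
  unfold om
  rw [← hk, e1, ph_one H Y (by omega) hYH, ph_one H (Y + 1) (by omega) (by omega)]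
  rw [one_mul, one_mul]
  have h1 := dl_sub Y (by omega)
  have h2 := dl_sub k (by omega)
  have h3 := ph_sub H k (by omega)
  have a1 := dl_nonneg Y
  have a2 := dl_nonneg (Y + 1)
  have a3 := dl_nonneg k
  have a4 := dl_nonneg (k + 1)
  have b1 := dl_le Y
  have b2 := dl_le (Y + 1)
  have b3 := dl_le k
  have b4 := dl_le (k + 1)
  have c1 := ph_nonneg H k
  have c2 := ph_le_one H k
  have c3 := ph_nonneg H (k + 1)
  have c4 := ph_le_one H (k + 1)
  have hYr : (H : ℝ) ≤ Y := by exact_mod_cast (by omega : H ≤ Y)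
  have hkr : (H : ℝ) ≤ k := by exact_mod_cast hkH
  have h1' : |dl Y - dl (Y + 1)| ≤ 3 / H :=
    h1.trans (div_le_div_of_nonneg_left (by norm_num) hH0 hYr)
  have h2' : |dl k - dl (k + 1)| ≤ 3 / H :=
    h2.trans (div_le_div_of_nonneg_left (by norm_num) hH0 hkr)
  have e : dl Y * dl (k + 1) * ph H (k + 1) - dl (Y + 1) * dl k * ph H k =
      (dl Y - dl (Y + 1)) * (dl (k + 1) * ph H (k + 1)) +
      (dl (Y + 1) * ph H (k + 1)) * (-(dl k - dl (k + 1))) +
      (dl (Y + 1) * dl k) * (ph H (k + 1) - ph H k) := by ring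
  rw [e]
  have t1 : |(dl Y - dl (Y + 1)) * (dl (k + 1) * ph H (k + 1))| ≤ 3 / H * (3 / 2) := by
    rw [abs_mul]
    refine mul_le_mul h1' ?_ (abs_nonneg _) (by positivity)
    rw [abs_of_nonneg (mul_nonneg a4 c3)]
    nlinarith
  have t2 : |(dl (Y + 1) * ph H (k + 1)) * (-(dl k - dl (k + 1)))| ≤ (3 / 2) * (3 / H) := by
    rw [abs_mul, abs_neg]
    refine mul_le_mul ?_ h2' (abs_nonneg _) (by positivity)
    rw [abs_of_nonneg (mul_nonneg a2 c3)]
    nlinarith
  have t3 : |(dl (Y + 1) * dl k) * (ph H (k + 1) - ph H k)| ≤ (9 / 4) * (1 / H) := by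
    rw [abs_mul]
    refine mul_le_mul ?_ h3 (abs_nonneg _) (by positivity)
    rw [abs_of_nonneg (mul_nonneg a2 a3)]
    nlinarith
  refine (abs_add_le _ _).trans ((add_le_add ((abs_add_le _ _).trans (add_le_add t1 t2)) t3).trans ?_)
  have e2 : 3 / (H : ℝ) * (3 / 2) + 3 / 2 * (3 / H) + 9 / 4 * (1 / H) = (45 / 4) / H := by ring
  rw [e2]
  exact div_le_div_of_nonneg_right (by norm_num) hH0.le

theorem cv_win (Y n : ℕ) (f : ℕ → ℝ) (h : Y < n) :
    cv Y f f n = ∑ m ∈ Icc (n - Y) Y, f m * f (n - m) := by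
  unfold cv
  have h1 : ∀ m ∈ Icc 1 Y, ∑ k ∈ Icc 1 Y, (if m + k = n then f m * f k else 0) =
      if m ∈ Icc (n - Y) Y then f m * f (n - m) else 0 := by
    intro m hm
    rw [mem_Icc] at hm
    by_cases h2 : m ∈ Icc (n - Y) Y
    · rw [if_pos h2]
      rw [mem_Icc] at h2
      rw [Finset.sum_eq_single (n - m)]
      · rw [if_pos (by omega)]
      · intro k hk hne
        rw [mem_Icc] at hk
        rw [if_neg (by omega)]
      · intro h3
        exact absurd (mem_Icc.mpr ⟨by omega, by omega⟩) h3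
    · rw [if_neg h2]
      rw [mem_Icc] at h2
      refine Finset.sum_eq_zero fun k hk => ?_
      rw [mem_Icc] at hk
      rw [if_neg (by omega)]
  rw [Finset.sum_congr rfl h1, ← Finset.sum_filter]
  refine Finset.sum_congr ?_ fun _ _ => rfl
  ext m
  simp only [mem_filter, mem_Icc]
  omega

private theorem la_lq (Y m : ℕ) (h : m ≤ Y) : la Y m = lq m := by
  unfold la lq
  by_cases hp : m.Prime
  · rw [if_pos ⟨hp, h⟩, if_pos hp]
  · rw [if_neg (fun hh => hp hh.1), if_neg hp]

private theorem lq_nonneg (m : ℕ) : 0 ≤ lq m := by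
  unfold lq
  split_ifs
  · exact Real.log_natCast_nonneg m
  · exact le_rfl

private theorem dl_lq (m : ℕ) : dl m * lq m = if m.Prime then 1 else 0 := by
  unfold dl lq
  by_cases hp : m.Prime
  · rw [if_pos hp.two_le, if_pos hp, if_pos hp]
    have := ab_log2 m hp.two_le
    rw [one_div, inv_mul_cancel₀ (by linarith)]
  · rw [if_neg hp, if_neg hp, mul_zero]

private theorem g_sum (n : ℕ) (hn : 2 ≤ n) : (En.g n : ℝ) =
    ∑ m ∈ Icc 1 (n - 1), dl m * dl (n - m) * (lq m * lq (n - m)) := by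
  have h1 : ∀ m ∈ Icc 1 (n - 1), dl m * dl (n - m) * (lq m * lq (n - m)) =
      if m.Prime ∧ (n - m).Prime then 1 else 0 := by
    intro m _
    have e : dl m * dl (n - m) * (lq m * lq (n - m)) =
        (dl m * lq m) * (dl (n - m) * lq (n - m)) := by ring
    rw [e, dl_lq, dl_lq]
    by_cases h1 : m.Prime
    · by_cases h2 : (n - m).Prime
      · rw [if_pos h1, if_pos h2, if_pos ⟨h1, h2⟩, mul_one]
      · have h3 : ¬ (m.Prime ∧ (n - m).Prime) := fun h => h2 h.2
        rw [if_pos h1, if_neg h2, if_neg h3, mul_zero]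
    · have h3 : ¬ (m.Prime ∧ (n - m).Prime) := fun h => h1 h.1
      rw [if_neg h1, if_neg h3, zero_mul]
  rw [Finset.sum_congr rfl h1, ← Finset.sum_filter, Finset.sum_const, nsmul_eq_mul, mul_one]
  unfold En.g
  congr 2
  ext m
  simp only [mem_filter, mem_range, mem_Icc]
  constructor
  · rintro ⟨h2, h3, h4⟩
    have := h3.pos
    have := h4.pos
    exact ⟨⟨by omega, by omega⟩, h3, h4⟩
  · rintro ⟨h2, h3, h4⟩
    exact ⟨by omega, h3, h4⟩

private theorem JJ_sum (n : ℕ) (hn : 4 ≤ n) : E2.JJ n =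
    ∑ m ∈ Icc 1 (n - 1), dl m * dl (n - m) := by
  unfold E2.JJ
  have hsub : Icc 2 (n - 2) ⊆ Icc 1 (n - 1) := by
    intro m hm
    rw [mem_Icc] at hm ⊢
    omega
  rw [← Finset.sum_subset hsub]
  · refine Finset.sum_congr rfl fun m hm => ?_
    rw [mem_Icc] at hm
    unfold dl
    rw [if_pos hm.1, if_pos (by omega), ← one_div_mul_one_div]
  · intro m hm hm2
    rw [mem_Icc] at hm hm2
    unfold dl
    by_cases h2 : 2 ≤ m
    · rw [if_neg (by omega : ¬ 2 ≤ n - m), mul_zero]
    · rw [if_neg h2, zero_mul]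

private theorem SS_nonneg (n : ℕ) : 0 ≤ En.SS n := by
  have h1 := En.SS_ge n
  have h2 := En.C2_pos
  linarith

/-- the representations in terms of the windows -/
theorem um_abel (n H : ℕ) (hH : 2 ≤ H) (hn : 4 * H ≤ n) (he : Even n) :
    |(En.g n : ℝ) - En.SS n * E2.JJ n| ≤ 4 * H * (1 + 3 * En.SS n) +
      12 / H * ∑ Y ∈ Ico (n / 2) (n - H),
        |cv Y (la Y) (la Y) n - En.SS n * (2 * Y - n + 1)| := by
  obtain ⟨h, hh⟩ := he
  have hn2 : n = 2 * h := by omega
  have e2 : n / 2 = h := by omega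
  rw [e2]
  have hH0 : (0 : ℝ) < H := by exact_mod_cast (by omega : 0 < H)
  have hSS := SS_nonneg n
  obtain ⟨S, hS⟩ : ∃ S : ℝ, S = En.SS n := ⟨_, rfl⟩
  rw [← hS] at hSS ⊢
  obtain ⟨f, hf⟩ : ∃ f : ℕ → ℝ, f = fun m => lq m * lq (n - m) - S := ⟨_, rfl⟩
  have hmain : (En.g n : ℝ) - S * E2.JJ n = ∑ m ∈ Icc 1 (n - 1), dl m * dl (n - m) * f m := by
    rw [g_sum n (by omega), JJ_sum n (by omega), Finset.mul_sum, ← Finset.sum_sub_distrib]
    refine Finset.sum_congr rfl fun m _ => ?_
    rw [hf]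
    ring
  have hsplit : ∑ m ∈ Icc 1 (n - 1), dl m * dl (n - m) * f m =
      ∑ m ∈ Icc 1 (n - 1), om H n m * f m +
      ∑ m ∈ Icc 1 (n - 1), dl m * dl (n - m) * f m * (1 - ph H m * ph H (n - m)) := by
    rw [← Finset.sum_add_distrib]
    refine Finset.sum_congr rfl fun m _ => ?_
    unfold om
    ring
  -- the truncation error
  have herr : |∑ m ∈ Icc 1 (n - 1), dl m * dl (n - m) * f m * (1 - ph H m * ph H (n - m))| ≤
      4 * H * (1 + 3 * S) := by
    have h1 : ∀ m ∈ Icc 1 (n - 1),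
        |dl m * dl (n - m) * f m * (1 - ph H m * ph H (n - m))| ≤
        if m ∈ (Icc 1 (n - 1)).filter (fun m => m < 2 * H ∨ n - m < 2 * H) then
          (1 + 3 * S) else 0 := by
      intro m hm
      by_cases h2 : m < 2 * H ∨ n - m < 2 * H
      · rw [if_pos (mem_filter.2 ⟨hm, h2⟩)]
        have a1 := dl_nonneg m
        have a2 := dl_nonneg (n - m)
        have b1 := dl_le m
        have b2 := dl_le (n - m)
        have c1 := ph_nonneg H m
        have c2 := ph_le_one H m
        have c3 := ph_nonneg H (n - m)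
        have c4 := ph_le_one H (n - m)
        have d1 : 0 ≤ ph H m * ph H (n - m) := mul_nonneg c1 c3
        have d2 : ph H m * ph H (n - m) ≤ 1 := by nlinarith
        have d3 : |dl m * dl (n - m) * f m| ≤ 1 + 3 * S := by
          have e3 : dl m * dl (n - m) * f m =
              (dl m * lq m) * (dl (n - m) * lq (n - m)) - dl m * dl (n - m) * S := by
            rw [hf]
            ring
          rw [e3]
          refine (abs_sub _ _).trans (add_le_add ?_ ?_)
          · rw [dl_lq, dl_lq]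
            split_ifs <;> norm_num
          · rw [abs_of_nonneg (mul_nonneg (mul_nonneg a1 a2) hSS)]
            refine mul_le_mul_of_nonneg_right ?_ hSS
            nlinarith
        rw [abs_mul]
        calc |dl m * dl (n - m) * f m| * |1 - ph H m * ph H (n - m)| ≤ (1 + 3 * S) * 1 := by
              refine mul_le_mul d3 ?_ (abs_nonneg _) (by linarith)
              rw [abs_le]
              constructor <;> linarith
          _ = _ := mul_one _
      · have h3 : m ∉ (Icc 1 (n - 1)).filter (fun m => m < 2 * H ∨ n - m < 2 * H) :=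
          fun h3 => h2 (mem_filter.1 h3).2
        rw [if_neg h3]
        rw [not_or, not_lt, not_lt] at h2
        rw [ph_one H m (by omega) h2.1, ph_one H (n - m) (by omega) h2.2]
        norm_num
    refine (Finset.abs_sum_le_sum_abs _ _).trans ((Finset.sum_le_sum h1).trans ?_)
    rw [Finset.sum_ite_mem, Finset.sum_const, nsmul_eq_mul]
    refine mul_le_mul_of_nonneg_right ?_ (by linarith)
    have h2 : (Icc 1 (n - 1) ∩ (Icc 1 (n - 1)).filter (fun m => m < 2 * H ∨ n - m < 2 * H)) ⊆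
        Ico 0 (2 * H) ∪ Ico (n + 1 - 2 * H) (n + 1) := by
      intro m hm
      simp only [mem_inter, mem_filter, mem_Icc, mem_union, mem_Ico] at hm ⊢
      omega
    have h3 := (Finset.card_le_card h2).trans (Finset.card_union_le _ _)
    rw [Nat.card_Ico, Nat.card_Ico] at h3
    have h4 : (Icc 1 (n - 1) ∩ (Icc 1 (n - 1)).filter
        (fun m => m < 2 * H ∨ n - m < 2 * H)).card ≤ 4 * H := by omega
    exact_mod_cast h4
  -- the main part
  have hD : ∀ Y, h ≤ Y → Y < n → ∑ m ∈ Icc (n - Y) Y, f m =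
      cv Y (la Y) (la Y) n - S * (2 * Y - n + 1) := by
    intro Y hY1 hY2
    rw [cv_win Y n (la Y) hY2, hf, Finset.sum_sub_distrib, Finset.sum_const, nsmul_eq_mul,
      Nat.card_Icc]
    have e3 : ((Y + 1 - (n - Y) : ℕ) : ℝ) = 2 * Y - n + 1 := by
      have : Y + 1 - (n - Y) = 2 * Y + 1 - n := by omega
      rw [this, Nat.cast_sub (by omega)]
      push_cast
      ring
    rw [e3]
    have e4 : ∑ m ∈ Icc (n - Y) Y, la Y m * la Y (n - m) =
        ∑ m ∈ Icc (n - Y) Y, lq m * lq (n - m) := by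
      refine Finset.sum_congr rfl fun m hm => ?_
      rw [mem_Icc] at hm
      rw [la_lq Y m hm.2, la_lq Y (n - m) (by omega)]
    rw [e4]
    ring
  have hpart : |∑ m ∈ Icc 1 (n - 1), om H n m * f m| ≤
      12 / H * ∑ Y ∈ Ico h (n - H), |cv Y (la Y) (la Y) n - S * (2 * Y - n + 1)| := by
    have h1 := abel_sym n h hn2 (by omega) (om H n) f (fun m hm => om_symm H n m hm) (n - 1)
      (by omega) le_rfl
    have e3 : n - (n - 1) = 1 := by omega
    rw [e3] at h1
    have e4 : om H n (n - 1) = 0 := by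
      unfold om
      rw [e3, ph_zero H 1 (by omega), mul_zero, mul_zero]
    rw [h1, e4, zero_mul, add_zero]
    have h2 : ∑ Y ∈ Ico h (n - 1), (om H n Y - om H n (Y + 1)) * ∑ m ∈ Icc (n - Y) Y, f m =
        ∑ Y ∈ Ico h (n - H), (om H n Y - om H n (Y + 1)) * ∑ m ∈ Icc (n - Y) Y, f m := by
      symm
      apply Finset.sum_subset
      · intro Y hY
        rw [mem_Ico] at hY ⊢
        omega
      · intro Y hY hY2
        rw [mem_Ico] at hY hY2
        have e5 : om H n Y = 0 := by
          unfold om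
          rw [ph_zero H (n - Y) (by omega), mul_zero, mul_zero]
        have e6 : om H n (Y + 1) = 0 := by
          unfold om
          rw [ph_zero H (n - (Y + 1)) (by omega), mul_zero, mul_zero]
        rw [e5, e6, sub_self, zero_mul]
    rw [h2, Finset.mul_sum]
    refine (Finset.abs_sum_le_sum_abs _ _).trans (Finset.sum_le_sum fun Y hY => ?_)
    rw [mem_Ico] at hY
    rw [abs_mul, hD Y hY.1 (by omega)]
    exact mul_le_mul_of_nonneg_right (om_sub H n Y hH hn (by omega) hY.2) (abs_nonneg _)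
  rw [hmain, hsplit]
  refine (abs_add_le _ _).trans ?_
  linarith

end Pool.MP_dd84fd_nt.UM
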