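import Pool.Agent.Lib.MP_dd84fd_nt.UM.NuMain
import Pool.Agent.Lib.MP_dd84fd_nt.E2.SingRate

/-! Bad integers of a dyadic block have a large mean square of the window errors. -/

set_option autoImplicit false

namespace Pool.MP_dd84fd_nt.UM

open Finset Pool.MP_67663b_nt.Odd Pool.MP_dd84fd_nt Pool.MP_dd84fd_nt.L2G

/-- the window error -/
noncomputable def EY (q Y n : ℕ) : ℝ :=
  cv Y (la Y) (la Y) n - cv Y (nu Y (Rm Y) q) (nu Y (Rm Y) q) n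

/-- the exceptional integers -/
def Bd (A n : ℕ) : Prop := Even n ∧
  (n : ℝ) / Real.log n ^ A < |(En.g n : ℝ) - En.SS n * E2.JJ n|

/-- real arithmetic of the block -/
private theorem bl_arith (A : ℕ) (Z ℓ H S S1 P b : ℝ) (hZ : 1 ≤ Z) (hℓ : 30 ≤ ℓ)
    (hH1 : H ≤ Z / ℓ ^ (A + 3)) (hH2 : Z / (2 * ℓ ^ (A + 3)) ≤ H) (hS0 : 0 ≤ S) (hS : S ≤ 8 * ℓ)
    (hP : 192 * ℓ ^ (2 * A + 3) * P ≤ Z) (hP0 : 0 ≤ P)
    (hb : Z / (2 * ℓ ^ A) ≤ b) (h : b ≤ 4 * H * (1 + 3 * S) + 12 / H * (S1 + Z * P)) :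
    Z ^ 2 / (96 * ℓ ^ (2 * A + 3)) ≤ S1 := by
  have hℓ0 : 0 < ℓ := by linarith
  have hH0 : 0 < H := lt_of_lt_of_le (by positivity) hH2
  have hpA : 0 < ℓ ^ A := by positivity
  -- first term
  have t1 : 4 * H * (1 + 3 * S) ≤ Z / (8 * ℓ ^ A) := by
    have e1 : 1 + 3 * S ≤ 25 * ℓ := by linarith
    have e2 : 4 * H * (1 + 3 * S) ≤ 4 * (Z / ℓ ^ (A + 3)) * (25 * ℓ) :=
      mul_le_mul (by linarith) e1 (by linarith) (by positivity)
    refine e2.trans ?_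
    have e3 : 4 * (Z / ℓ ^ (A + 3)) * (25 * ℓ) = 100 * Z / (ℓ ^ A * ℓ ^ 2) := by
      rw [pow_add]
      field_simp
      ring
    rw [e3, div_le_div_iff₀ (by positivity) (by positivity)]
    have e4 : 800 ≤ ℓ ^ 2 := by nlinarith
    have e5 : 0 ≤ Z * ℓ ^ A := by positivity
    nlinarith [mul_le_mul_of_nonneg_left e4 e5]
  -- second term
  have t2 : 12 / H * (Z * P) ≤ Z / (8 * ℓ ^ A) := by
    have e1 : 12 / H ≤ 12 / (Z / (2 * ℓ ^ (A + 3))) :=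
      div_le_div_of_nonneg_left (by norm_num) (by positivity) hH2
    have e2 : 12 / (Z / (2 * ℓ ^ (A + 3))) = 24 * ℓ ^ (A + 3) / Z := by
      field_simp
      ring
    rw [e2] at e1
    have e3 : 12 / H * (Z * P) ≤ 24 * ℓ ^ (A + 3) / Z * (Z * P) :=
      mul_le_mul_of_nonneg_right e1 (by positivity)
    refine e3.trans ?_
    have e4 : 24 * ℓ ^ (A + 3) / Z * (Z * P) = 24 * ℓ ^ (A + 3) * P := by
      field_simp
    rw [e4, le_div_iff₀ (by positivity)]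
    have e5 : 24 * ℓ ^ (A + 3) * P * (8 * ℓ ^ A) = 192 * ℓ ^ (2 * A + 3) * P := by
      have : ℓ ^ (2 * A + 3) = ℓ ^ (A + 3) * ℓ ^ A := by
        rw [← pow_add]
        congr 1
        ring
      rw [this]
      ring
    rw [e5]
    exact hP
  have t3 : Z / (4 * ℓ ^ A) ≤ 12 / H * S1 := by
    have e1 : Z / (2 * ℓ ^ A) = Z / (4 * ℓ ^ A) + (Z / (8 * ℓ ^ A) + Z / (8 * ℓ ^ A)) := by
      field_simp
      ring
    have e2 : 12 / H * (S1 + Z * P) = 12 / H * S1 + 12 / H * (Z * P) := by ring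
    rw [e1] at hb
    rw [e2] at h
    linarith
  have t4 : Z / (4 * ℓ ^ A) * (H / 12) ≤ S1 := by
    have e1 : 12 / H * S1 * (H / 12) = S1 := by
      field_simp
    calc Z / (4 * ℓ ^ A) * (H / 12) ≤ 12 / H * S1 * (H / 12) :=
          mul_le_mul_of_nonneg_right t3 (by positivity)
      _ = S1 := e1
  refine le_trans ?_ t4
  calc Z ^ 2 / (96 * ℓ ^ (2 * A + 3)) = Z / (4 * ℓ ^ A) * ((Z / (2 * ℓ ^ (A + 3))) / 12) := by
        have : ℓ ^ (2 * A + 3) = ℓ ^ (A + 3) * ℓ ^ A := by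
          rw [← pow_add]
          congr 1
          ring
        rw [this]
        field_simp
        ring
    _ ≤ Z / (4 * ℓ ^ A) * (H / 12) := by
        refine mul_le_mul_of_nonneg_left ?_ (by positivity)
        exact div_le_div_of_nonneg_right hH2 (by norm_num)

theorem um_point (A : ℕ) : ∃ Z0 : ℕ, ∀ Z : ℕ, Z0 ≤ Z → ∀ (q : ℕ) [NeZero q],
    (∀ Y : ℕ, Z / 4 ≤ Y → (q : ℝ) ≤ (Y : ℝ) ^ (2 / 3 : ℝ)) → ∀ n : ℕ, n ≤ Z → Z < 2 * n →
    Bd A n →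
    1 ≤ 9216 * Real.log Z ^ (4 * A + 6) / (Z : ℝ) ^ 3 *
      ∑ Y ∈ Ico (Z / 4) Z, if n ≤ 2 * Y then EY q Y n ^ 2 else 0 := by
  obtain ⟨Y0, hY0⟩ := nu_main_w
  obtain ⟨X1, hX1⟩ := Filter.eventually_atTop.1 (((ma_log_pow (A + 3) 1 (by norm_num) 2).and
    (ma_log_pow (2 * A + 3) (1 / 2000) (by norm_num) 192)).and
    ((Real.tendsto_log_atTop.comp tendsto_natCast_atTop_atTop).eventually_ge_atTop (30 : ℝ)))
  refine ⟨max X1 (max (4 * Y0 + 4) 16), fun Z hZ q _ hq n hnZ hZn hbd => ?_⟩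
  simp only [max_le_iff] at hZ
  obtain ⟨hZ1, hZ2, hZ3⟩ := hZ
  obtain ⟨⟨hlp1, hlp2⟩, hl30⟩ := hX1 Z hZ1
  obtain ⟨he, hb⟩ := hbd
  rw [Function.comp_apply] at hl30
  obtain ⟨ℓ, hℓ⟩ : ∃ ℓ : ℝ, ℓ = Real.log Z := ⟨_, rfl⟩
  rw [← hℓ] at hlp1 hlp2 hl30 ⊢
  rw [Real.rpow_one] at hlp1
  have hZr : (16 : ℝ) ≤ Z := by exact_mod_cast hZ3
  have hZpos : (0 : ℝ) < Z := by linarith
  have hℓ0 : 0 < ℓ := by linarith
  have hn8 : 8 ≤ n := by omega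
  have hnr : (8 : ℝ) ≤ n := by exact_mod_cast hn8
  have hnZr : (n : ℝ) ≤ Z := by exact_mod_cast hnZ
  have hZn2 : (Z : ℝ) ≤ 2 * n := by exact_mod_cast hZn.le
  have hlogn : Real.log n ≤ ℓ := by
    rw [hℓ]
    exact Real.log_le_log (by linarith) hnZr
  have hlogn0 : 0 < Real.log n := Real.log_pos (by linarith)
  -- H
  obtain ⟨H, hH⟩ : ∃ H : ℕ, H = ⌊(Z : ℝ) / ℓ ^ (A + 3)⌋₊ := ⟨_, rfl⟩
  have hbase : 2 ≤ (Z : ℝ) / ℓ ^ (A + 3) := by
    rw [le_div_iff₀ (by positivity)]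
    exact hlp1
  have hH1 : (H : ℝ) ≤ Z / ℓ ^ (A + 3) := by
    rw [hH]
    exact Nat.floor_le (by positivity)
  have hHlt : (Z : ℝ) / ℓ ^ (A + 3) < H + 1 := by
    rw [hH]
    exact Nat.lt_floor_add_one _
  have hH2 : (Z : ℝ) / (2 * ℓ ^ (A + 3)) ≤ H := by
    have e1 : (Z : ℝ) / (2 * ℓ ^ (A + 3)) = Z / ℓ ^ (A + 3) / 2 := by
      field_simp
    rw [e1]
    linarith
  have hHge : 2 ≤ H := by
    rw [hH]
    exact Nat.le_floor (by exact_mod_cast hbase)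
  have h4H : 4 * H ≤ n := by
    have e1 : (4 : ℝ) * H ≤ n := by
      have e2 : (Z : ℝ) / ℓ ^ (A + 3) ≤ Z / 8 := by
        refine div_le_div_of_nonneg_left hZpos.le (by norm_num) ?_
        calc (8 : ℝ) ≤ ℓ := by linarith
          _ ≤ ℓ ^ (A + 3) := le_self_pow₀ (by linarith) (by omega)
      linarith
    exact_mod_cast e1
  have habel := um_abel n H hHge h4H he
  -- the window errors
  have hSS0 : 0 ≤ En.SS n := by
    have h1 := En.SS_ge n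
    have h2 := En.C2_pos
    linarith
  have hSS : En.SS n ≤ 8 * ℓ := by
    have h1 := E2.SS_le n (by omega)
    linarith
  have hsum : ∑ Y ∈ Ico (n / 2) (n - H), |cv Y (la Y) (la Y) n - En.SS n * (2 * Y - n + 1)| ≤
      ∑ Y ∈ Ico (n / 2) (n - H), |EY q Y n| + Z * (Z : ℝ) ^ (1999 / 2000 : ℝ) := by
    have h1 : ∀ Y ∈ Ico (n / 2) (n - H),
        |cv Y (la Y) (la Y) n - En.SS n * (2 * Y - n + 1)| ≤
          |EY q Y n| + (Z : ℝ) ^ (1999 / 2000 : ℝ) := by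
      intro Y hY
      rw [mem_Ico] at hY
      have h2 := hY0 Y (by omega) q (hq Y (by omega)) n he (by omega) (by
        obtain ⟨k, hk⟩ := he
        omega)
      have h3 : (Y : ℝ) ^ (1999 / 2000 : ℝ) ≤ (Z : ℝ) ^ (1999 / 2000 : ℝ) := by
        refine Real.rpow_le_rpow (Nat.cast_nonneg _) ?_ (by norm_num)
        have : Y ≤ Z := by omega
        exact_mod_cast this
      have h4 : cv Y (la Y) (la Y) n - En.SS n * (2 * Y - n + 1) = EY q Y n +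
          (cv Y (nu Y (Rm Y) q) (nu Y (Rm Y) q) n - En.SS n * (2 * Y - n + 1)) := by
        unfold EY
        ring
      rw [h4]
      exact (abs_add_le _ _).trans (by linarith)
    refine (Finset.sum_le_sum h1).trans ?_
    rw [Finset.sum_add_distrib, Finset.sum_const, nsmul_eq_mul, Nat.card_Ico]
    have h2 : ((n - H - n / 2 : ℕ) : ℝ) ≤ Z := by
      have : n - H - n / 2 ≤ Z := by omega
      exact_mod_cast this
    have h3 : 0 ≤ (Z : ℝ) ^ (1999 / 2000 : ℝ) := by positivity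
    have h4 := mul_le_mul_of_nonneg_right h2 h3
    linarith
  have hH0 : (0 : ℝ) < H := by exact_mod_cast (by omega : 0 < H)
  have hle : |(En.g n : ℝ) - En.SS n * E2.JJ n| ≤ 4 * H * (1 + 3 * En.SS n) +
      12 / H * (∑ Y ∈ Ico (n / 2) (n - H), |EY q Y n| + Z * (Z : ℝ) ^ (1999 / 2000 : ℝ)) :=
    habel.trans (add_le_add le_rfl (mul_le_mul_of_nonneg_left hsum (by positivity)))
  have hP : 192 * ℓ ^ (2 * A + 3) * (Z : ℝ) ^ (1999 / 2000 : ℝ) ≤ Z := by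
    calc 192 * ℓ ^ (2 * A + 3) * (Z : ℝ) ^ (1999 / 2000 : ℝ) ≤
          (Z : ℝ) ^ (1 / 2000 : ℝ) * (Z : ℝ) ^ (1999 / 2000 : ℝ) :=
          mul_le_mul_of_nonneg_right hlp2 (by positivity)
      _ = Z := by
          rw [← Real.rpow_add hZpos]
          norm_num
  have hbb : (Z : ℝ) / (2 * ℓ ^ A) ≤ |(En.g n : ℝ) - En.SS n * E2.JJ n| := by
    refine le_trans ?_ hb.le
    rw [div_le_div_iff₀ (by positivity) (by positivity)]
    have e1 : Real.log n ^ A ≤ ℓ ^ A := pow_le_pow_left₀ hlogn0.le hlogn A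
    calc (Z : ℝ) * Real.log n ^ A ≤ (2 * n) * ℓ ^ A :=
          mul_le_mul hZn2 e1 (by positivity) (by positivity)
      _ = n * (2 * ℓ ^ A) := by ring
  have hS1 := bl_arith A Z ℓ H (En.SS n) _ _ _ (by linarith) hl30 hH1 hH2 hSS0 hSS hP
    (by positivity) hbb hle
  -- Cauchy-Schwarz
  have hcs : (∑ Y ∈ Ico (n / 2) (n - H), |EY q Y n|) ^ 2 ≤
      Z * ∑ Y ∈ Ico (n / 2) (n - H), EY q Y n ^ 2 := by
    have h1 := sq_sum_le_card_mul_sum_sq (s := Ico (n / 2) (n - H)) (f := fun Y => |EY q Y n|)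
    have h2 : ∀ Y ∈ Ico (n / 2) (n - H), |EY q Y n| ^ 2 = EY q Y n ^ 2 := fun Y _ => sq_abs _
    rw [Finset.sum_congr rfl h2, Nat.card_Ico] at h1
    refine h1.trans (mul_le_mul_of_nonneg_right ?_ (Finset.sum_nonneg fun _ _ => sq_nonneg _))
    have : n - H - n / 2 ≤ Z := by omega
    exact_mod_cast this
  have hsub : ∑ Y ∈ Ico (n / 2) (n - H), EY q Y n ^ 2 ≤
      ∑ Y ∈ Ico (Z / 4) Z, if n ≤ 2 * Y then EY q Y n ^ 2 else 0 := by
    have h1 : ∑ Y ∈ Ico (n / 2) (n - H), EY q Y n ^ 2 =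
        ∑ Y ∈ Ico (n / 2) (n - H), if n ≤ 2 * Y then EY q Y n ^ 2 else 0 := by
      refine Finset.sum_congr rfl fun Y hY => ?_
      rw [mem_Ico] at hY
      rw [if_pos]
      obtain ⟨k, hk⟩ := he
      omega
    rw [h1]
    refine Finset.sum_le_sum_of_subset_of_nonneg ?_ ?_
    · intro Y hY
      rw [mem_Ico] at hY ⊢
      omega
    · intro Y _ _
      split_ifs
      · exact sq_nonneg _
      · exact le_rfl
  obtain ⟨T, hT⟩ : ∃ T : ℝ, T = ∑ Y ∈ Ico (Z / 4) Z, if n ≤ 2 * Y then EY q Y n ^ 2 else 0 :=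
    ⟨_, rfl⟩
  rw [← hT] at hsub ⊢
  have h1 : ((Z : ℝ) ^ 2 / (96 * ℓ ^ (2 * A + 3))) ^ 2 ≤ Z * T :=
    (pow_le_pow_left₀ (by positivity) hS1 2).trans
      (hcs.trans (mul_le_mul_of_nonneg_left hsub hZpos.le))
  have h2 : ((Z : ℝ) ^ 2 / (96 * ℓ ^ (2 * A + 3))) ^ 2 =
      Z * ((Z : ℝ) ^ 3 / (9216 * ℓ ^ (4 * A + 6))) := by
    have : ℓ ^ (4 * A + 6) = (ℓ ^ (2 * A + 3)) ^ 2 := by
      rw [← pow_mul]
      congr 1
      ring
    rw [this, div_pow, mul_pow]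
    field_simp
    ring
  rw [h2] at h1
  have h3 := le_of_mul_le_mul_left h1 hZpos
  rw [div_le_iff₀ (by positivity)] at h3
  rw [div_mul_eq_mul_div, one_le_div (by positivity)]
  linarith

open Classical in
theorem um_block (A : ℕ) : ∃ Z0 : ℕ, ∀ Z : ℕ, Z0 ≤ Z → ∀ X : ℕ, Z ≤ X → ∀ (q : ℕ) [NeZero q],
    (∀ Y : ℕ, Z / 4 ≤ Y → (q : ℝ) ≤ (Y : ℝ) ^ (2 / 3 : ℝ)) → ∀ a : ZMod q,
    ∀ ξ : ℕ → ℝ, (∀ n, 0 ≤ ξ n) →
    ∑ n ∈ (Icc 1 Z).filter (fun n : ℕ => Bd A n ∧ Z < 2 * n ∧ (n : ZMod q) = a), ξ n ≤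
      9216 * Real.log Z ^ (4 * A + 6) / (Z : ℝ) ^ 3 * ∑ Y ∈ Ico (Z / 4) Z,
        ∑ n ∈ (Icc 1 X).filter (fun n : ℕ => n ≤ 2 * Y ∧ (n : ZMod q) = a),
          ξ n * EY q Y n ^ 2 := by
  obtain ⟨Z0, hZ0⟩ := um_point A
  refine ⟨max Z0 1, fun Z hZ X hZX q _ hq a ξ hξ => ?_⟩
  have hpt := hZ0 Z ((le_max_left _ _).trans hZ) q hq
  have hZ1 : 1 ≤ Z := (le_max_right _ _).trans hZ
  obtain ⟨c, hc⟩ : ∃ c : ℝ, c = 9216 * Real.log Z ^ (4 * A + 6) / (Z : ℝ) ^ 3 := ⟨_, rfl⟩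
  rw [← hc] at hpt ⊢
  have hc0 : 0 ≤ c := by
    rw [hc]
    have : 0 ≤ Real.log Z := Real.log_natCast_nonneg Z
    positivity
  have h1 : ∑ n ∈ (Icc 1 Z).filter (fun n : ℕ => Bd A n ∧ Z < 2 * n ∧ (n : ZMod q) = a), ξ n ≤
      ∑ n ∈ (Icc 1 X).filter (fun n : ℕ => (n : ZMod q) = a),
        ξ n * (c * ∑ Y ∈ Ico (Z / 4) Z, if n ≤ 2 * Y then EY q Y n ^ 2 else 0) := by
    refine le_trans (Finset.sum_le_sum (g := fun n => ξ n * (c * ∑ Y ∈ Ico (Z / 4) Z,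
      if n ≤ 2 * Y then EY q Y n ^ 2 else 0)) ?_)
      (Finset.sum_le_sum_of_subset_of_nonneg ?_ ?_)
    · intro n hn
      rw [mem_filter, mem_Icc] at hn
      obtain ⟨⟨hn1, hnZ⟩, hb, h2n, -⟩ := hn
      calc ξ n = ξ n * 1 := (mul_one _).symm
        _ ≤ _ := mul_le_mul_of_nonneg_left (hpt n hnZ h2n hb) (hξ n)
    · intro n hn
      rw [mem_filter, mem_Icc] at hn ⊢
      exact ⟨⟨hn.1.1, hn.1.2.trans hZX⟩, hn.2.2.2⟩
    · intro n _ _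
      refine mul_nonneg (hξ n) (mul_nonneg hc0 (Finset.sum_nonneg fun Y _ => ?_))
      split_ifs
      · exact sq_nonneg _
      · exact le_rfl
  refine h1.trans (le_of_eq ?_)
  rw [Finset.mul_sum]
  have h2 : ∀ Y ∈ Ico (Z / 4) Z, c * ∑ n ∈ (Icc 1 X).filter
      (fun n : ℕ => n ≤ 2 * Y ∧ (n : ZMod q) = a), ξ n * EY q Y n ^ 2 =
      ∑ n ∈ (Icc 1 X).filter (fun n : ℕ => (n : ZMod q) = a),
        c * (if n ≤ 2 * Y then ξ n * EY q Y n ^ 2 else 0) := by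
    intro Y _
    rw [← Finset.mul_sum]
    congr 1
    rw [← Finset.sum_filter, Finset.filter_filter]
    refine Finset.sum_congr ?_ fun _ _ => rfl
    ext n
    simp only [mem_filter]
    tauto
  rw [Finset.sum_congr rfl h2, Finset.sum_comm]
  refine Finset.sum_congr rfl fun n _ => ?_
  rw [Finset.mul_sum, Finset.mul_sum]
  refine Finset.sum_congr rfl fun Y _ => ?_
  by_cases h3 : n ≤ 2 * Y
  · rw [if_pos h3, if_pos h3]
    ring
  · rw [if_neg h3, if_neg h3]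
    ring

end Pool.MP_dd84fd_nt.UM
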