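import Pool.Agent.Lib.MP_dd84fd_nt.L2G.ChDefs
import Pool.Agent.Lib.MP_dd84fd_nt.L2G.T2L2
import Pool.Agent.Lib.MP_dd84fd_nt.L2G.Avg
import Pool.Agent.Lib.MP_dd84fd_nt.L2G.ClassAlg
import Pool.Agent.Lib.MP_dd84fd_nt.L2G.ModelArith
import Pool.Agent.Lib.MP_dd84fd_nt.L2G.CvBasic
import Pool.Agent.Lib.MP_dd84fd_nt.LS.SpecBound
import Pool.Agent.Lib.MP_dd84fd_nt.LS.Four

set_option autoImplicit false

namespace Pool.MP_dd84fd_nt.UM

open Finset Pool.MP_67663b_nt.Odd Pool.MP_dd84fd_nt Pool.MP_dd84fd_nt.L2G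

private theorem SpecW_av (N : ℕ) [NeZero N] (f : ℝ → ℝ) :
    (1 / (N : ℝ)) * ∑ j : ZMod N, f ((j.val : ℝ) / N) = av N f := by
  have h : ∑ j : ZMod N, f ((j.val : ℝ) / N) = ∑ j ∈ range N, f ((j : ℝ) / N) := by
    refine Finset.sum_nbij' (i := fun j : ZMod N => j.val) (j := fun k : ℕ => (k : ZMod N))
      ?_ ?_ ?_ ?_ ?_
    · intro j _
      exact mem_range.mpr (ZMod.val_lt j)
    · intro k _
      exact mem_univ _
    · intro j _
      exact ZMod.natCast_zmod_val j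
    · intro k hk
      exact ZMod.val_natCast_of_lt (mem_range.mp hk)
    · intro j _
      rfl
  rw [h, av]
  ring

private theorem SpecW_VA (N X q : ℕ) [NeZero q] (hN : X < N) (f : ℕ → ℝ) :
    av N (fun θ => VA X q f θ) = ∑ n ∈ Icc 1 X, f n ^ 2 := by
  unfold VA
  rw [av_sum, ← Finset.sum_fiberwise (Icc 1 X) (fun n : ℕ => (n : ZMod q)) (fun n => f n ^ 2)]
  refine Finset.sum_congr rfl fun b _ => ?_
  have h := parseval (N := N) ((Icc 1 X).filter (fun n : ℕ => (n : ZMod q) = b)) (fun n hn => by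
    have h1 := (Finset.mem_Icc.1 (Finset.mem_filter.1 hn).1).2
    omega) (fun n => (f n : ℂ))
  unfold fz
  rw [h]
  refine Finset.sum_congr rfl fun n _ => ?_
  rw [Complex.norm_real, Real.norm_eq_abs, sq_abs]

private theorem SpecW_co (N : ℕ) [NeZero N] (s : Finset ℕ) (hs : ∀ m ∈ s, m < N) (u : ℕ → ℝ)
    (n : ℕ) (hn : n ∈ s) :
    LS.co N (fun j => ∑ m ∈ s, (u m : ℂ) * ZMod.stdAddChar ((m : ZMod N) * j)) n = (u n : ℂ) := by
  have hN0 : (N : ℂ) ≠ 0 := by exact_mod_cast NeZero.ne N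
  unfold LS.co
  have h1 : ∀ j ∈ (univ : Finset (ZMod N)),
      (∑ m ∈ s, (u m : ℂ) * ZMod.stdAddChar ((m : ZMod N) * j)) *
        ZMod.stdAddChar (-((n : ZMod N) * j)) =
      ∑ m ∈ s, (u m : ℂ) * ZMod.stdAddChar (((m : ZMod N) - (n : ZMod N)) * j) := by
    intro j _
    rw [Finset.sum_mul]
    refine Finset.sum_congr rfl (fun m _ => ?_)
    have : ((m : ZMod N) - (n : ZMod N)) * j = (m : ZMod N) * j + (-((n : ZMod N) * j)) := by
      ring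
    rw [this, AddChar.map_add_eq_mul]
    ring
  rw [Finset.sum_congr rfl h1, Finset.sum_comm, Finset.sum_eq_single n]
  · rw [← Finset.mul_sum, LS.sum_chi, if_pos (sub_self _)]
    field_simp
  · intro m hm hne
    rw [← Finset.mul_sum, LS.sum_chi, if_neg, mul_zero]
    intro h0
    exact hne (LS.cast_eq_small (hs m hm) (hs n hn) (sub_eq_zero.1 h0))
  · intro h
    exact absurd hn h

theorem spec_scale_w (ε : ℝ) (hε : 0 < ε) (hε1 : ε < 1) : ∃ C : ℕ, ∀ A K : ℕ, ∃ Y0 : ℕ,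
    ∀ Y : ℕ, Y0 ≤ Y → ∀ (X N : ℕ) [NeZero N], Y ≤ X → X < N → 2 * Y < N →
    ∀ ξ : ℕ → ℝ, (∀ n, 0 ≤ ξ n) → ∑ n ∈ Icc 1 X, ξ n ≤ 1 → ∀ δ : ℝ, 0 ≤ δ →
    ∀ (q : ℕ) [NeZero q], (q : ℝ) ≤ (Y : ℝ) ^ (2 / 3 - ε) → ∀ a : ZMod q,
    (Nat.gcd a.val q : ℝ) ≤ Real.log Y ^ K →
    ∑ n ∈ (Icc 1 X).filter (fun n : ℕ => n ≤ 2 * Y ∧ (n : ZMod q) = a),
      ξ n * (cv Y (la Y) (la Y) n - cv Y (nu Y (Rm Y) q) (nu Y (Rm Y) q) n) ^ 2 ≤
      δ * (Y * Real.log Y ^ C) ^ 2 +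
        ((Pool.MP_dd84fd_nt.LS.spec N X ξ δ).card : ℝ) / N * (Y ^ 3 / (q * Real.log Y ^ A)) := by
  obtain ⟨C, hC⟩ := nu_L2
  refine ⟨C + 3, fun A K => ?_⟩
  obtain ⟨Y1, hL2⟩ := t2_L2 ε hε hε1 A K
  have hev : ∀ᶠ X : ℕ in Filter.atTop, 8 ≤ Real.log X :=
    (Real.tendsto_log_atTop.comp tendsto_natCast_atTop_atTop).eventually_ge_atTop 8
  obtain ⟨Y2, hY2⟩ := Filter.eventually_atTop.1 hev
  refine ⟨max Y1 (max Y2 3), ?_⟩
  intro Y hY X N _ hYX hXN hYN ξ hξ hsum δ hδ q _ hq a ha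
  have hYa : Y1 ≤ Y := (le_max_left _ _).trans hY
  have hYb : Y2 ≤ Y := ((le_max_left _ _).trans (le_max_right _ _)).trans hY
  have hYc : 3 ≤ Y := ((le_max_right _ _).trans (le_max_right _ _)).trans hY
  have hL8 := hY2 Y hYb
  have hq1 : 1 ≤ q := NeZero.one_le
  have hY1 : (1 : ℝ) ≤ Y := by
    have : 1 ≤ Y := by omega
    exact_mod_cast this
  have hY0 : (0 : ℝ) < Y := by linarith
  have hNr : (0 : ℝ) < N := by exact_mod_cast Nat.pos_of_ne_zero (NeZero.ne N)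
  have hqY : q ≤ Y := by
    have h1 : (q : ℝ) ≤ Y := by
      refine hq.trans ?_
      calc (Y : ℝ) ^ (2 / 3 - ε) ≤ (Y : ℝ) ^ (1 : ℝ) :=
            Real.rpow_le_rpow_of_exponent_le hY1 (by linarith)
        _ = Y := Real.rpow_one _
    exact_mod_cast h1
  have hRY : Rm Y ≤ Y := by
    unfold Rm
    have h1 : ((⌊(Y : ℝ) ^ (1 / 50 : ℝ)⌋₊ : ℕ) : ℝ) ≤ Y := by
      refine (Nat.floor_le (by positivity)).trans ?_
      calc (Y : ℝ) ^ (1 / 50 : ℝ) ≤ (Y : ℝ) ^ (1 : ℝ) :=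
            Real.rpow_le_rpow_of_exponent_le hY1 (by norm_num)
        _ = Y := Real.rpow_one _
    exact_mod_cast h1
  have hnu := hC Y (Rm Y) q hYc hRY hq1 hqY
  have hla := sum_la_sq_le Y
  have hE2 := hL2 Y hYa q hq a ha
  set L : ℝ := Real.log Y with hL
  set fl : ℕ → ℝ := la Y with hfl
  set fn : ℕ → ℝ := nu Y (Rm Y) q with hfn
  set u : ℕ → ℝ := fun n => cv Y fl fl n - cv Y fn fn n with hu
  set s : Finset ℕ := (range (2 * Y + 1)).filter (fun n : ℕ => (n : ZMod q) = a) with hs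
  have hsN : ∀ m ∈ s, m < N := by
    intro m hm
    have h1 := mem_range.1 (mem_filter.1 hm).1
    omega
  set r : ZMod N → ℂ := fun j => ∑ m ∈ s, (u m : ℂ) * ZMod.stdAddChar ((m : ZMod N) * j) with hr
  have hrF : ∀ j : ZMod N, r j = Fz Y q fl ((j.val : ℝ) / N) a - Fz Y q fn ((j.val : ℝ) / N) a := by
    intro j
    rw [hr]
    unfold Fz
    rw [← sum_sub_distrib]
    refine sum_congr rfl fun n _ => ?_
    rw [LS.chi_ee, hu]
    push_cast
    ring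
  have hrS : ∀ j : ZMod N, r j = ∑ m ∈ s, (u m : ℂ) * ee (m * ((j.val : ℝ) / N)) := by
    intro j
    rw [hr]
    exact sum_congr rfl fun n _ => by rw [LS.chi_ee]
  -- L2
  have hr2 : (1 / (N : ℝ)) * ∑ j, ‖r j‖ ^ 2 ≤ Y ^ 3 / (q * L ^ A) := by
    have h1 : ∀ j : ZMod N, ‖r j‖ ^ 2 =
        (fun θ : ℝ => ‖∑ m ∈ s, (u m : ℂ) * ee (m * θ)‖ ^ 2) ((j.val : ℝ) / N) := by
      intro j
      rw [hrS]
    have h2 := SpecW_av N (fun θ : ℝ => ‖∑ m ∈ s, (u m : ℂ) * ee (m * θ)‖ ^ 2)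
    rw [sum_congr rfl fun j _ => h1 j, h2, parseval s hsN]
    refine le_trans (le_of_eq ?_) hE2
    refine sum_congr rfl fun n _ => ?_
    rw [Complex.norm_real, Real.norm_eq_abs, sq_abs]
  -- L1
  have hr1 : (1 / (N : ℝ)) * ∑ j, ‖r j‖ ≤ Y * L ^ (C + 3) := by
    have h1 : ∑ j, ‖r j‖ ≤ ∑ j : ZMod N,
        (fun θ : ℝ => VA Y q fl θ + VA Y q fn θ) ((j.val : ℝ) / N) := by
      refine sum_le_sum fun j _ => ?_
      rw [hrF]
      exact (norm_sub_le _ _).trans (add_le_add (Fz_le_VA _ _ _ _ _) (Fz_le_VA _ _ _ _ _))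
    refine (mul_le_mul_of_nonneg_left h1 (by positivity)).trans ?_
    have h0 := SpecW_av N (fun θ : ℝ => VA Y q fl θ + VA Y q fn θ)
    rw [h0, av_add, SpecW_VA N Y q (by omega), SpecW_VA N Y q (by omega)]
    have h2 : (2 : ℝ) * Y * L + Y * L ^ C ≤ Y * L ^ (C + 3) := by
      have h3 : L ^ (C + 3) = L ^ C * L ^ 3 := pow_add _ _ _
      have h4 : (1 : ℝ) ≤ L ^ C := one_le_pow₀ (by linarith)
      have h50 : 0 ≤ L ^ 2 - 4 := by nlinarith
      have h51 : 0 ≤ L := by linarith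
      have h5 : 4 * L ≤ L ^ 3 := by nlinarith [mul_nonneg h51 h50]
      have h6 : (2 : ℝ) ≤ L ^ 3 := by linarith
      have h7 : 2 * L + L ^ C ≤ L ^ C * L ^ 3 := by
        have h8 : L ^ 3 ≤ L ^ C * L ^ 3 := le_mul_of_one_le_left (by linarith) h4
        have h9 : L ^ C * 2 ≤ L ^ C * L ^ 3 := mul_le_mul_of_nonneg_left h6 (by linarith)
        linarith
      rw [h3]
      nlinarith [mul_le_mul_of_nonneg_left h7 hY0.le]
    linarith
  have hsb := LS.spec_bound N X ξ hξ hsum r δ hδ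
  have hlow : ∑ n ∈ (Icc 1 X).filter (fun n : ℕ => n ≤ 2 * Y ∧ (n : ZMod q) = a), ξ n * u n ^ 2 ≤
      ∑ n ∈ Icc 1 X, ξ n * ‖LS.co N r n‖ ^ 2 := by
    refine le_trans (Finset.sum_le_sum (g := fun n => ξ n * ‖LS.co N r n‖ ^ 2) ?_)
      (Finset.sum_le_sum_of_subset_of_nonneg ?_
        (fun n _ _ => mul_nonneg (hξ n) (sq_nonneg _)))
    · intro n hn
      rw [mem_filter, mem_Icc] at hn
      have hns : n ∈ s := by
        rw [hs, mem_filter, mem_range]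
        exact ⟨by omega, hn.2.2⟩
      rw [hr, SpecW_co N s hsN u n hns, Complex.norm_real, Real.norm_eq_abs, sq_abs]
    · intro n hn
      rw [mem_filter, mem_Icc] at hn
      rw [mem_Icc]
      omega
  refine hlow.trans (hsb.trans ?_)
  refine add_le_add ?_ ?_
  · refine mul_le_mul_of_nonneg_left ?_ hδ
    exact pow_le_pow_left₀ (mul_nonneg (by positivity)
      (Finset.sum_nonneg fun j _ => norm_nonneg _)) hr1 2
  · exact mul_le_mul_of_nonneg_left hr2 (by positivity)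

end Pool.MP_dd84fd_nt.UM
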