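import Pool.Agent.Lib.MP_dd84fd_nt.T7.Defs
import Pool.Agent.Lib.MP_dd84fd_nt.L2G.ModelArith
import Pool.Agent.Lib.MP_dd84fd_nt.L2G.ModelAux
import Pool.Agent.Lib.MP_dd84fd_nt.L2G.ModelConv

/-! Window version of T7/NuConv45: the model at level `Rm Y` on `[1, 2Y]`. -/

set_option autoImplicit false

namespace Pool.MP_dd84fd_nt.UM

open Finset Pool.MP_67663b_nt.Odd Pool.MP_dd84fd_nt Pool.MP_dd84fd_nt.L2G

/-- one class -/
private theorem nw_class (X R q n M : ℕ) [NeZero q] (hn : n ≤ X) (hM : M < n) (hR : 1 ≤ R) (b : ZMod q)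
    (hb : IsUnit b) (hnb : IsUnit ((n : ZMod q) - b)) :
    ‖∑ m ∈ (Icc 1 M).filter (fun m : ℕ => (m : ZMod q) = b),
        (((nu X R q m * nu X R q (n - m) : ℝ)) : ℂ) -
      (((q : ℝ) / (Nat.totient q : ℝ)) ^ 2 * ((M : ℝ) / q * SR R q n) : ℝ)‖ ≤
      ((q : ℝ) / (Nat.totient q : ℝ)) ^ 2 * (3 * (R : ℝ) ^ 4) := by
  obtain ⟨κ, hκ⟩ : ∃ κ : ℝ, κ = (q : ℝ) / (Nat.totient q : ℝ) := ⟨_, rfl⟩
  rw [← hκ]
  have hR1 : (1 : ℝ) ≤ R := by exact_mod_cast hR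
  have hq0 : (0 : ℝ) < q := by
    have : 0 < q := Nat.pos_of_ne_zero (NeZero.ne q)
    exact_mod_cast this
  obtain ⟨G, hG⟩ : ∃ G : ℝ → ℂ, G = fun x => ∑ m ∈ (Icc 1 M).filter
    (fun m : ℕ => (m : ZMod q) = b), ee ((m : ℝ) * x) := ⟨_, rfl⟩
  -- expansion
  have h1 : ∑ m ∈ (Icc 1 M).filter (fun m : ℕ => (m : ZMod q) = b),
        (((nu X R q m * nu X R q (n - m) : ℝ)) : ℂ) =
      (κ : ℂ) ^ 2 * ∑ p ∈ ma_P R q, ∑ p' ∈ ma_P R q, (ma_w p : ℂ) * (ma_w p' : ℂ) *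
        ee ((n : ℝ) * ma_f p') * G (ma_f p - ma_f p') := by
    have h2 : ∀ m ∈ (Icc 1 M).filter (fun m : ℕ => (m : ZMod q) = b),
        (((nu X R q m * nu X R q (n - m) : ℝ)) : ℂ) =
        (κ : ℂ) ^ 2 * ∑ p ∈ ma_P R q, ∑ p' ∈ ma_P R q, (ma_w p : ℂ) * (ma_w p' : ℂ) *
          ee ((n : ℝ) * ma_f p') * ee ((m : ℝ) * (ma_f p - ma_f p')) := by
      intro m hm
      rw [mem_filter, mem_Icc] at hm
      have hu1 : IsUnit (m : ZMod q) := by rw [hm.2]; exact hb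
      have hu2 : IsUnit ((n - m : ℕ) : ZMod q) := by
        rw [Nat.cast_sub (by omega), hm.2]; exact hnb
      rw [Complex.ofReal_mul, ma_nu_P X R q m hm.1.1 (by omega) hu1,
        ma_nu_P X R q (n - m) (by omega) (by omega) hu2, ← hκ]
      have e : (κ : ℂ) * (∑ p ∈ ma_P R q, (ma_w p : ℂ) * ee ((m : ℝ) * ma_f p)) *
          ((κ : ℂ) * ∑ p ∈ ma_P R q, (ma_w p : ℂ) * ee (((n - m : ℕ) : ℝ) * ma_f p)) =
          (κ : ℂ) ^ 2 * ((∑ p ∈ ma_P R q, (ma_w p : ℂ) * ee ((m : ℝ) * ma_f p)) *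
            ∑ p ∈ ma_P R q, (ma_w p : ℂ) * ee (((n - m : ℕ) : ℝ) * ma_f p)) := by ring
      rw [e, Finset.sum_mul_sum]
      congr 1
      refine Finset.sum_congr rfl fun p _ => Finset.sum_congr rfl fun p' _ => ?_
      have e2 : ee ((n : ℝ) * ma_f p') * ee ((m : ℝ) * (ma_f p - ma_f p')) =
          ee ((m : ℝ) * ma_f p) * ee (((n - m : ℕ) : ℝ) * ma_f p') := by
        rw [← ee_add, ← ee_add]
        congr 1
        rw [Nat.cast_sub (by omega)]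
        ring
      rw [mul_assoc ((ma_w p : ℂ) * (ma_w p' : ℂ)), e2]
      ring
    rw [Finset.sum_congr rfl h2, ← Finset.mul_sum]
    congr 1
    rw [Finset.sum_comm]
    refine Finset.sum_congr rfl fun p _ => ?_
    rw [Finset.sum_comm]
    refine Finset.sum_congr rfl fun p' _ => ?_
    rw [hG, Finset.mul_sum]
  -- the diagonal
  have hdiag : G 0 = ((ma_cnt M q b : ℝ) : ℂ) := by
    rw [hG]
    simp only [mul_zero, ee_zero]
    rw [Finset.sum_const, nsmul_eq_mul, mul_one, ma_card]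
    push_cast
    rfl
  have hcnt : |(ma_cnt M q b : ℝ) - (M : ℝ) / q| ≤ 2 := by
    have h2 := ma_cnt_le M q b
    have h3 := ma_cnt_ge M q b
    rw [abs_le]
    constructor <;> linarith
  -- off the diagonal
  have hoff : ∀ p ∈ ma_P R q, ∀ p' ∈ ma_P R q, p ≠ p' →
      ‖G (ma_f p - ma_f p')‖ ≤ (R : ℝ) ^ 2 / 2 := by
    intro p hp p' hp' hne
    rw [ma_mem_P] at hp hp'
    rw [hG]
    refine (ma_mn M q b _).trans ?_
    have hp1 : (0 : ℝ) < p.1 := by exact_mod_cast hp.1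
    have hp1' : (0 : ℝ) < p'.1 := by exact_mod_cast hp'.1
    have hsp := ma_spacing q p.1 p'.1 hp.1 hp'.1 hp.2.2.1 hp'.2.2.1 (p.2 : ℤ) (-(p'.2 : ℤ))
      ((Nat.isCoprime_iff_coprime.mpr hp.2.2.2.2).symm)
      ((Nat.isCoprime_iff_coprime.mpr hp'.2.2.2.2).symm.neg_left) (by
        rintro ⟨h3, h4⟩
        apply hne
        have h5 : ((p.2 : ℤ) + -(p'.2 : ℤ)) = 0 := by
          refine Int.eq_zero_of_abs_lt_dvd h4 ?_
          rw [abs_lt]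
          have h6 := hp.2.2.2.1
          have h7 := hp'.2.2.2.1
          rw [← h3] at h7
          constructor <;> omega
        have h6 : p.2 = p'.2 := by omega
        exact Sigma.ext h3 (heq_of_eq h6))
    have e : (q : ℝ) * ((((p.2 : ℕ) : ℤ) : ℝ) / p.1 + ((-((p'.2 : ℕ) : ℤ) : ℤ) : ℝ) / p'.1) =
        q * (ma_f p - ma_f p') := by
      unfold ma_f
      push_cast
      ring
    rw [e] at hsp
    refine (ma_mn_inv _ _ _ (by positivity) hsp).trans ?_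
    have h3 : (p.1 : ℝ) ≤ R := by exact_mod_cast hp.2.1
    have h4 : (p'.1 : ℝ) ≤ R := by exact_mod_cast hp'.2.1
    have h5 : (p.1 : ℝ) * p'.1 ≤ R * R := mul_le_mul h3 h4 hp1'.le (by linarith)
    have h6 : 1 / (2 * (1 / ((p.1 : ℝ) * p'.1))) = (p.1 : ℝ) * p'.1 / 2 := by
      field_simp
    rw [h6]
    nlinarith
  -- splitting
  have hsplit : ∑ p ∈ ma_P R q, ∑ p' ∈ ma_P R q, (ma_w p : ℂ) * (ma_w p' : ℂ) *
        ee ((n : ℝ) * ma_f p') * G (ma_f p - ma_f p') =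
      (((M : ℝ) / q * SR R q n : ℝ) : ℂ) +
      (∑ p ∈ ma_P R q, (ma_w p : ℂ) ^ 2 * ee ((n : ℝ) * ma_f p) * (G 0 - (((M : ℝ) / q : ℝ) : ℂ)) +
      ∑ p ∈ ma_P R q, ∑ p' ∈ (ma_P R q).filter (fun p' => p' ≠ p), (ma_w p : ℂ) * (ma_w p' : ℂ) *
        ee ((n : ℝ) * ma_f p') * G (ma_f p - ma_f p')) := by
    rw [Complex.ofReal_mul, ← ma_sum_SR R q n, Finset.mul_sum, ← add_assoc,
      ← Finset.sum_add_distrib, ← Finset.sum_add_distrib]
    refine Finset.sum_congr rfl fun p hp => ?_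
    rw [← Finset.sum_filter_add_sum_filter_not (ma_P R q) (fun p' => p' ≠ p)
      (fun p' => (ma_w p : ℂ) * (ma_w p' : ℂ) * ee ((n : ℝ) * ma_f p') * G (ma_f p - ma_f p'))]
    have h3 : (ma_P R q).filter (fun p' => ¬ p' ≠ p) = {p} := by
      ext p'
      rw [mem_filter, mem_singleton, not_not]
      constructor
      · exact fun h => h.2
      · rintro rfl
        exact ⟨hp, rfl⟩
    rw [h3, Finset.sum_singleton, sub_self]
    ring
  rw [h1, hsplit]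
  have e3 : (κ : ℂ) ^ 2 * ((((M : ℝ) / q * SR R q n : ℝ) : ℂ) +
      (∑ p ∈ ma_P R q, (ma_w p : ℂ) ^ 2 * ee ((n : ℝ) * ma_f p) * (G 0 - (((M : ℝ) / q : ℝ) : ℂ)) +
      ∑ p ∈ ma_P R q, ∑ p' ∈ (ma_P R q).filter (fun p' => p' ≠ p), (ma_w p : ℂ) * (ma_w p' : ℂ) *
        ee ((n : ℝ) * ma_f p') * G (ma_f p - ma_f p'))) -
      ((κ ^ 2 * ((M : ℝ) / q * SR R q n) : ℝ) : ℂ) = (κ : ℂ) ^ 2 *
      (∑ p ∈ ma_P R q, (ma_w p : ℂ) ^ 2 * ee ((n : ℝ) * ma_f p) * (G 0 - (((M : ℝ) / q : ℝ) : ℂ)) +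
      ∑ p ∈ ma_P R q, ∑ p' ∈ (ma_P R q).filter (fun p' => p' ≠ p), (ma_w p : ℂ) * (ma_w p' : ℂ) *
        ee ((n : ℝ) * ma_f p') * G (ma_f p - ma_f p')) := by
    push_cast
    ring
  rw [e3, norm_mul, norm_pow, Complex.norm_real, Real.norm_eq_abs, sq_abs]
  refine mul_le_mul_of_nonneg_left ?_ (sq_nonneg _)
  refine (norm_add_le _ _).trans ?_
  have hw1 : ∀ p ∈ ma_P R q, |ma_w p| ≤ 1 := by
    intro p hp
    rw [ma_mem_P] at hp
    have h3 := ma_mu_le p.1 hp.1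
    have h4 : (1 : ℝ) ≤ Nat.totient p.1 := by
      exact_mod_cast Nat.totient_pos.mpr hp.1
    have h5 : |ma_w p| * (Nat.totient p.1 : ℝ) ≤ 1 := h3
    have h6 := abs_nonneg (ma_w p)
    nlinarith
  have hA : ‖∑ p ∈ ma_P R q, (ma_w p : ℂ) ^ 2 * ee ((n : ℝ) * ma_f p) *
      (G 0 - (((M : ℝ) / q : ℝ) : ℂ))‖ ≤ 2 * R := by
    refine (norm_sum_le _ _).trans ?_
    have h3 : ∀ p ∈ ma_P R q, ‖(ma_w p : ℂ) ^ 2 * ee ((n : ℝ) * ma_f p) *
        (G 0 - (((M : ℝ) / q : ℝ) : ℂ))‖ ≤ |ma_w p| * 2 := by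
      intro p hp
      rw [norm_mul, norm_mul, norm_ee, mul_one, norm_pow, Complex.norm_real, Real.norm_eq_abs,
        hdiag, ← Complex.ofReal_sub, Complex.norm_real, Real.norm_eq_abs]
      refine mul_le_mul ?_ hcnt (abs_nonneg _) (abs_nonneg _)
      have := hw1 p hp
      have h6 := abs_nonneg (ma_w p)
      nlinarith
    refine (Finset.sum_le_sum h3).trans ?_
    rw [← Finset.sum_mul]
    have := ma_sum_w R q
    linarith
  have hB : ‖∑ p ∈ ma_P R q, ∑ p' ∈ (ma_P R q).filter (fun p' => p' ≠ p),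
      (ma_w p : ℂ) * (ma_w p' : ℂ) * ee ((n : ℝ) * ma_f p') * G (ma_f p - ma_f p')‖ ≤
      (R : ℝ) ^ 2 / 2 * R * R := by
    refine (norm_sum_le _ _).trans ?_
    have h3 : ∀ p ∈ ma_P R q, ‖∑ p' ∈ (ma_P R q).filter (fun p' => p' ≠ p),
        (ma_w p : ℂ) * (ma_w p' : ℂ) * ee ((n : ℝ) * ma_f p') * G (ma_f p - ma_f p')‖ ≤
        |ma_w p| * ((R : ℝ) ^ 2 / 2 * R) := by
      intro p hp
      refine (norm_sum_le _ _).trans ?_
      have h4 : ∀ p' ∈ (ma_P R q).filter (fun p' => p' ≠ p),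
          ‖(ma_w p : ℂ) * (ma_w p' : ℂ) * ee ((n : ℝ) * ma_f p') * G (ma_f p - ma_f p')‖ ≤
          |ma_w p| * ((R : ℝ) ^ 2 / 2 * |ma_w p'|) := by
        intro p' hp'
        rw [mem_filter] at hp'
        rw [norm_mul, norm_mul, norm_mul, norm_ee, mul_one, Complex.norm_real, Complex.norm_real,
          Real.norm_eq_abs, Real.norm_eq_abs, mul_assoc]
        refine mul_le_mul_of_nonneg_left ?_ (abs_nonneg _)
        rw [mul_comm]
        exact mul_le_mul_of_nonneg_right (hoff p hp p' hp'.1 (Ne.symm hp'.2)) (abs_nonneg _)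
      refine (Finset.sum_le_sum h4).trans ?_
      rw [← Finset.mul_sum, ← Finset.mul_sum]
      refine mul_le_mul_of_nonneg_left ?_ (abs_nonneg _)
      refine mul_le_mul_of_nonneg_left ?_ (by positivity)
      refine le_trans ?_ (ma_sum_w R q)
      exact Finset.sum_le_sum_of_subset_of_nonneg (Finset.filter_subset _ _)
        fun _ _ _ => abs_nonneg _
    refine (Finset.sum_le_sum h3).trans ?_
    rw [← Finset.sum_mul]
    have h4 := mul_le_mul_of_nonneg_right (ma_sum_w R q)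
      (by positivity : (0 : ℝ) ≤ (R : ℝ) ^ 2 / 2 * R)
    linarith
  refine (add_le_add hA hB).trans ?_
  have h3 : (R : ℝ) ≤ (R : ℝ) ^ 4 := by
    have : (R : ℝ) ^ 1 ≤ (R : ℝ) ^ 4 := pow_le_pow_right₀ hR1 (by norm_num)
    simpa using this
  have h4 : (R : ℝ) ^ 2 / 2 * R * R = (R : ℝ) ^ 4 / 2 := by ring
  rw [h4]
  linarith [pow_nonneg (by linarith : (0 : ℝ) ≤ R) 4]

theorem nu_conv_win : ∃ X0 : ℕ, ∀ X : ℕ, X0 ≤ X → ∀ (q : ℕ) [NeZero q],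
    (q : ℝ) ≤ (X : ℝ) ^ (4 / 5 : ℝ) → ∀ n M : ℕ, n ≤ 2 * X → M < n →
    |∑ m ∈ Icc 1 M, nu (2 * X) (Rm X) q m * nu (2 * X) (Rm X) q (n - m) -
      (q : ℝ) * (Nc q (n : ZMod q) : ℝ) / (Nat.totient q : ℝ) ^ 2 * SR (Rm X) q n * M| ≤
      (X : ℝ) ^ (9 / 10 : ℝ) := by
  obtain ⟨X1, hX1⟩ := Filter.eventually_atTop.mp (ma_log_pow 2 (1 / 100 : ℝ) (by norm_num) 48)
  refine ⟨max X1 3, fun X hX q _ hq n M hn hM => ?_⟩
  have hX1' : X1 ≤ X := (le_max_left _ _).trans hX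
  have hX3 : 3 ≤ X := (le_max_right _ _).trans hX
  have hXr : (1 : ℝ) ≤ X := by exact_mod_cast (by omega : 1 ≤ X)
  have hX0 : (0 : ℝ) < X := by linarith
  have hq0 : 0 < q := Nat.pos_of_ne_zero (NeZero.ne q)
  have hq0' : (0 : ℝ) < q := by exact_mod_cast hq0
  have hqX : q ≤ X := by
    have h9 : (q : ℝ) ≤ X := hq.trans (by
      calc (X : ℝ) ^ (4 / 5 : ℝ) ≤ (X : ℝ) ^ (1 : ℝ) :=
            Real.rpow_le_rpow_of_exponent_le hXr (by norm_num)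
        _ = X := Real.rpow_one _)
    exact_mod_cast h9
  have hlog1 : 1 ≤ Real.log X := by
    rw [Real.le_log_iff_exp_le hX0]
    have : (3 : ℝ) ≤ X := by exact_mod_cast hX3
    linarith [Real.exp_one_lt_d9]
  obtain ⟨R, hR⟩ : ∃ R, R = Rm X := ⟨_, rfl⟩
  have hR1 : 1 ≤ R := by
    rw [hR]
    unfold Rm
    rw [Nat.one_le_floor_iff]
    exact Real.one_le_rpow hXr (by norm_num)
  rw [← hR]
  obtain ⟨κ, hκ⟩ : ∃ κ : ℝ, κ = (q : ℝ) / (Nat.totient q : ℝ) := ⟨_, rfl⟩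
  have hφ : (0 : ℝ) < Nat.totient q := by exact_mod_cast Nat.totient_pos.mpr hq0
  have hκ0 : 0 ≤ κ := by rw [hκ]; positivity
  have hκ1 : κ ≤ 4 * Real.log X := by
    rw [hκ]
    refine (ma_ratio q X hq0 hqX).trans ?_
    linarith
  -- decomposition into classes
  have h1 : ((∑ m ∈ Icc 1 M, nu (2 * X) R q m * nu (2 * X) R q (n - m) : ℝ) : ℂ) =
      ∑ b : ZMod q, ∑ m ∈ (Icc 1 M).filter (fun m : ℕ => (m : ZMod q) = b),
        (((nu (2 * X) R q m * nu (2 * X) R q (n - m) : ℝ)) : ℂ) := by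
    rw [Complex.ofReal_sum]
    rw [← Finset.sum_fiberwise (Icc 1 M) (fun m : ℕ => (m : ZMod q))]
  have h2 : ∀ b : ZMod q, ¬ (IsUnit b ∧ IsUnit ((n : ZMod q) - b)) →
      ∑ m ∈ (Icc 1 M).filter (fun m : ℕ => (m : ZMod q) = b),
        (((nu (2 * X) R q m * nu (2 * X) R q (n - m) : ℝ)) : ℂ) = 0 := by
    intro b hb
    refine Finset.sum_eq_zero fun m hm => ?_
    rw [mem_filter, mem_Icc] at hm
    rcases not_and_or.mp hb with h | h
    · rw [ma_nu_zero (2 * X) R q m (by rw [hm.2]; exact h)]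
      simp
    · rw [ma_nu_zero (2 * X) R q (n - m) (by rw [Nat.cast_sub (by omega), hm.2]; exact h)]
      simp
  have h3 : ((∑ m ∈ Icc 1 M, nu (2 * X) R q m * nu (2 * X) R q (n - m) : ℝ) : ℂ) =
      ∑ b ∈ univ.filter (fun b : ZMod q => IsUnit b ∧ IsUnit ((n : ZMod q) - b)),
        ∑ m ∈ (Icc 1 M).filter (fun m : ℕ => (m : ZMod q) = b),
        (((nu (2 * X) R q m * nu (2 * X) R q (n - m) : ℝ)) : ℂ) := by
    rw [h1, Finset.sum_filter]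
    refine Finset.sum_congr rfl fun b _ => ?_
    split_ifs with h
    · rfl
    · exact h2 b h
  have h4 : (((q : ℝ) * (Nc q (n : ZMod q) : ℝ) / (Nat.totient q : ℝ) ^ 2 * SR R q n * M : ℝ) : ℂ) =
      ∑ _b ∈ univ.filter (fun b : ZMod q => IsUnit b ∧ IsUnit ((n : ZMod q) - b)),
        ((κ ^ 2 * ((M : ℝ) / q * SR R q n) : ℝ) : ℂ) := by
    rw [Finset.sum_const, nsmul_eq_mul]
    have h5 : ((univ.filter (fun b : ZMod q => IsUnit b ∧ IsUnit ((n : ZMod q) - b))).card : ℂ) =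
        ((Nc q (n : ZMod q) : ℝ) : ℂ) := by
      push_cast
      rfl
    rw [h5, ← Complex.ofReal_mul]
    congr 1
    rw [hκ]
    field_simp
  rw [← Real.norm_eq_abs, ← Complex.norm_real, Complex.ofReal_sub, h3, h4,
    ← Finset.sum_sub_distrib]
  refine (norm_sum_le _ _).trans ?_
  have h5 : ∀ b ∈ univ.filter (fun b : ZMod q => IsUnit b ∧ IsUnit ((n : ZMod q) - b)),
      ‖∑ m ∈ (Icc 1 M).filter (fun m : ℕ => (m : ZMod q) = b),
        (((nu (2 * X) R q m * nu (2 * X) R q (n - m) : ℝ)) : ℂ) -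
        ((κ ^ 2 * ((M : ℝ) / q * SR R q n) : ℝ) : ℂ)‖ ≤ κ ^ 2 * (3 * (R : ℝ) ^ 4) := by
    intro b hb
    rw [mem_filter] at hb
    rw [hκ]
    exact nw_class (2 * X) R q n M hn hM hR1 b hb.2.1 hb.2.2
  refine (Finset.sum_le_card_nsmul _ _ _ h5).trans ?_
  rw [nsmul_eq_mul]
  have h6 : ((univ.filter (fun b : ZMod q => IsUnit b ∧ IsUnit ((n : ZMod q) - b))).card : ℝ) ≤
      q := by
    have := Finset.card_filter_le (univ : Finset (ZMod q))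
      (fun b : ZMod q => IsUnit b ∧ IsUnit ((n : ZMod q) - b))
    rw [Finset.card_univ, ZMod.card] at this
    exact_mod_cast this
  have h7 : (R : ℝ) ^ 4 ≤ (X : ℝ) ^ (4 / 50 : ℝ) := by
    have h8 : (R : ℝ) ≤ (X : ℝ) ^ (1 / 50 : ℝ) := by rw [hR]; exact ma_Rm_le X
    calc (R : ℝ) ^ 4 ≤ ((X : ℝ) ^ (1 / 50 : ℝ)) ^ 4 := pow_le_pow_left₀ (by positivity) h8 4
      _ = (X : ℝ) ^ (4 / 50 : ℝ) := by
        rw [← Real.rpow_natCast, ← Real.rpow_mul hX0.le]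
        norm_num
  have h8 : κ ^ 2 ≤ 16 * Real.log X ^ 2 := by
    calc κ ^ 2 ≤ (4 * Real.log X) ^ 2 := pow_le_pow_left₀ hκ0 hκ1 2
      _ = 16 * Real.log X ^ 2 := by ring
  calc ((univ.filter (fun b : ZMod q => IsUnit b ∧ IsUnit ((n : ZMod q) - b))).card : ℝ) *
        (κ ^ 2 * (3 * (R : ℝ) ^ 4))
      ≤ (X : ℝ) ^ (4 / 5 : ℝ) * ((16 * Real.log X ^ 2) * (3 * (X : ℝ) ^ (4 / 50 : ℝ))) := by
        refine mul_le_mul (h6.trans hq) ?_ (by positivity) (by positivity)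
        exact mul_le_mul h8 (by linarith) (by positivity) (by positivity)
    _ = (48 * Real.log X ^ 2) * ((X : ℝ) ^ (4 / 5 : ℝ) * (X : ℝ) ^ (4 / 50 : ℝ)) := by ring
    _ ≤ (X : ℝ) ^ (1 / 100 : ℝ) * ((X : ℝ) ^ (4 / 5 : ℝ) * (X : ℝ) ^ (4 / 50 : ℝ)) :=
        mul_le_mul_of_nonneg_right (hX1 X hX1') (by positivity)
    _ = (X : ℝ) ^ (1 / 100 + (4 / 5 + 4 / 50) : ℝ) := by
        rw [← Real.rpow_add hX0, ← Real.rpow_add hX0]
    _ ≤ (X : ℝ) ^ (9 / 10 : ℝ) :=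
        Real.rpow_le_rpow_of_exponent_le hXr (by norm_num)

end Pool.MP_dd84fd_nt.UM
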