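import Pool.Agent.Lib.MP_dd84fd_nt.UM.SingW
import Pool.Agent.Lib.MP_dd84fd_nt.UM.NuWin
import Pool.Agent.Lib.MP_dd84fd_nt.UM.Abel

/-! The main term in the windows. -/

set_option autoImplicit false

namespace Pool.MP_dd84fd_nt.UM

open Finset Pool.MP_67663b_nt.Odd Pool.MP_dd84fd_nt Pool.MP_dd84fd_nt.L2G

private theorem nm_ev (c : ℝ) (hc : 0 < c) (K : ℝ) : ∀ᶠ X : ℕ in Filter.atTop,
    K ≤ (X : ℝ) ^ c :=
  ((tendsto_rpow_atTop hc).comp tendsto_natCast_atTop_atTop).eventually_ge_atTop K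

private theorem nm_nu (Y R q m : ℕ) (h : m ≤ Y) : nu Y R q m = nu (2 * Y) R q m := by
  unfold nu
  by_cases h1 : 1 ≤ m ∧ Nat.Coprime m q
  · rw [if_pos ⟨h1.1, h, h1.2⟩, if_pos ⟨h1.1, by omega, h1.2⟩]
  · rw [if_neg (fun hh => h1 ⟨hh.1, hh.2.2⟩), if_neg (fun hh => h1 ⟨hh.1, hh.2.2⟩)]

theorem nu_main_w : ∃ Y0 : ℕ, ∀ Y : ℕ, Y0 ≤ Y → ∀ (q : ℕ) [NeZero q],
    (q : ℝ) ≤ (Y : ℝ) ^ (2 / 3 : ℝ) → ∀ n : ℕ, Even n → Y < n → n ≤ 2 * Y →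
    |cv Y (nu Y (Rm Y) q) (nu Y (Rm Y) q) n - En.SS n * (2 * Y - n + 1)| ≤
      (Y : ℝ) ^ (1999 / 2000 : ℝ) := by
  obtain ⟨X1, h1⟩ := nu_conv_win
  obtain ⟨X2, h2⟩ := sing_serw
  obtain ⟨X3, hX3⟩ := Filter.eventually_atTop.1 ((nm_ev (1 / 100) (by norm_num) 3).and
    (nm_ev (1 / 2000) (by norm_num) 4))
  refine ⟨max (max X1 X2) (max X3 1), fun Y hY q _ hq n hne hYn hn => ?_⟩
  simp only [max_le_iff] at hY
  obtain ⟨⟨hY1, hY2⟩, hY3, hY4⟩ := hY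
  obtain ⟨hy3, hy4⟩ := hX3 Y hY3
  have hYr : (1 : ℝ) ≤ Y := by exact_mod_cast hY4
  have hY0 : (0 : ℝ) < Y := by linarith
  have hq45 : (q : ℝ) ≤ (Y : ℝ) ^ (4 / 5 : ℝ) :=
    hq.trans (Real.rpow_le_rpow_of_exponent_le hYr (by norm_num))
  have hqY : q ≤ 2 * Y := by
    have h3 : (q : ℝ) ≤ Y := hq.trans (by
      calc (Y : ℝ) ^ (2 / 3 : ℝ) ≤ (Y : ℝ) ^ (1 : ℝ) :=
            Real.rpow_le_rpow_of_exponent_le hYr (by norm_num)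
        _ = Y := Real.rpow_one _)
    have h4 : q ≤ Y := by exact_mod_cast h3
    omega
  obtain ⟨R, hR⟩ : ∃ R, R = Rm Y := ⟨_, rfl⟩
  have hRY : R ≤ 2 * Y := by
    have h3 : (R : ℝ) ≤ Y := by
      rw [hR]
      exact (ma_Rm_le Y).trans (by
        calc (Y : ℝ) ^ (1 / 50 : ℝ) ≤ (Y : ℝ) ^ (1 : ℝ) :=
              Real.rpow_le_rpow_of_exponent_le hYr (by norm_num)
          _ = Y := Real.rpow_one _)
    have h4 : R ≤ Y := by exact_mod_cast h3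
    omega
  have hRlow : (((2 * Y : ℕ) : ℝ)) ^ (1 / 100 : ℝ) ≤ R := by
    have e1 : (((2 * Y : ℕ) : ℝ)) ^ (1 / 100 : ℝ) ≤ 2 * (Y : ℝ) ^ (1 / 100 : ℝ) := by
      push_cast
      rw [Real.mul_rpow (by norm_num) hY0.le]
      refine mul_le_mul_of_nonneg_right ?_ (by positivity)
      calc (2 : ℝ) ^ (1 / 100 : ℝ) ≤ (2 : ℝ) ^ (1 : ℝ) :=
            Real.rpow_le_rpow_of_exponent_le (by norm_num) (by norm_num)
        _ = 2 := Real.rpow_one _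
    have e2 : (Y : ℝ) ^ (1 / 50 : ℝ) = (Y : ℝ) ^ (1 / 100 : ℝ) * (Y : ℝ) ^ (1 / 100 : ℝ) := by
      rw [← Real.rpow_add hY0]
      norm_num
    have e3 : (Y : ℝ) ^ (1 / 50 : ℝ) - 1 < R := by
      rw [hR]
      unfold Rm
      exact Nat.sub_one_lt_floor _
    rw [e2] at e3
    nlinarith
  have hser := h2 (2 * Y) (by omega) R hRlow hRY q hqY n (by omega) hn hne
  obtain ⟨P, hP⟩ : ∃ P : ℝ, P = (q : ℝ) * (Nc q (n : ZMod q) : ℝ) / (Nat.totient q : ℝ) ^ 2 *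
    SR R q n := ⟨_, rfl⟩
  rw [← hP] at hser
  have hc1 := h1 Y hY1 q hq45 n Y hn hYn
  have hc2 := h1 Y hY1 q hq45 n (n - Y - 1) hn (by omega)
  rw [← hR, ← hP] at hc1 hc2
  -- the window
  have hcv : cv Y (nu Y R q) (nu Y R q) n =
      ∑ m ∈ Icc 1 Y, nu (2 * Y) R q m * nu (2 * Y) R q (n - m) -
      ∑ m ∈ Icc 1 (n - Y - 1), nu (2 * Y) R q m * nu (2 * Y) R q (n - m) := by
    rw [cv_win Y n (nu Y R q) hYn]
    have e1 : Icc 1 Y = Icc 1 (n - Y - 1) ∪ Icc (n - Y) Y := by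
      ext m
      simp only [mem_union, mem_Icc]
      omega
    have e2 : Disjoint (Icc 1 (n - Y - 1)) (Icc (n - Y) Y) := by
      rw [Finset.disjoint_left]
      intro m hm hm2
      rw [mem_Icc] at hm hm2
      omega
    rw [e1, Finset.sum_union e2, add_sub_cancel_left]
    refine Finset.sum_congr rfl fun m hm => ?_
    rw [mem_Icc] at hm
    rw [nm_nu Y R q m hm.2, nm_nu Y R q (n - m) (by omega)]
  rw [← hR, hcv]
  have hcast : ((n - Y - 1 : ℕ) : ℝ) = (n : ℝ) - Y - 1 := by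
    rw [Nat.cast_sub (by omega), Nat.cast_sub (by omega)]
    push_cast
    ring
  rw [hcast] at hc2
  obtain ⟨A1, hA1⟩ : ∃ A1 : ℝ, A1 = ∑ m ∈ Icc 1 Y, nu (2 * Y) R q m * nu (2 * Y) R q (n - m) :=
    ⟨_, rfl⟩
  obtain ⟨A2, hA2⟩ : ∃ A2 : ℝ, A2 = ∑ m ∈ Icc 1 (n - Y - 1),
    nu (2 * Y) R q m * nu (2 * Y) R q (n - m) := ⟨_, rfl⟩
  rw [← hA1] at hc1 ⊢
  rw [← hA2] at hc2 ⊢
  have e3 : A1 - A2 - En.SS n * (2 * Y - n + 1) =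
      (A1 - P * Y) - (A2 - P * ((n : ℝ) - Y - 1)) + (P - En.SS n) * (2 * Y - n + 1) := by ring
  rw [e3]
  have hnr : (n : ℝ) ≤ 2 * Y := by exact_mod_cast hn
  have hnr2 : (Y : ℝ) + 1 ≤ n := by exact_mod_cast hYn
  have h5 : |(P - En.SS n) * (2 * Y - n + 1)| ≤ (Y : ℝ) ^ (999 / 1000 : ℝ) := by
    rw [abs_mul]
    have e4 : |(2 * (Y : ℝ) - n + 1)| ≤ Y := by
      rw [abs_of_nonneg (by linarith)]
      linarith
    have e5 : (((2 * Y : ℕ) : ℝ)) ^ (-(1 / 1000) : ℝ) ≤ (Y : ℝ) ^ (-(1 / 1000) : ℝ) := by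
      apply Real.rpow_le_rpow_of_nonpos hY0 _ (by norm_num)
      push_cast
      linarith
    calc |P - En.SS n| * |(2 * (Y : ℝ) - n + 1)| ≤ (Y : ℝ) ^ (-(1 / 1000) : ℝ) * Y :=
          mul_le_mul (hser.trans e5) e4 (abs_nonneg _) (by positivity)
      _ = (Y : ℝ) ^ (-(1 / 1000) : ℝ) * (Y : ℝ) ^ (1 : ℝ) := by rw [Real.rpow_one]
      _ = (Y : ℝ) ^ (999 / 1000 : ℝ) := by
          rw [← Real.rpow_add hY0]
          norm_num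
  have h6 : (Y : ℝ) ^ (9 / 10 : ℝ) ≤ (Y : ℝ) ^ (999 / 1000 : ℝ) :=
    Real.rpow_le_rpow_of_exponent_le hYr (by norm_num)
  have h7 : (Y : ℝ) ^ (1999 / 2000 : ℝ) = (Y : ℝ) ^ (1 / 2000 : ℝ) * (Y : ℝ) ^ (999 / 1000 : ℝ) := by
    rw [← Real.rpow_add hY0]
    norm_num
  have h8 : 0 ≤ (Y : ℝ) ^ (999 / 1000 : ℝ) := by positivity
  rw [h7]
  calc |A1 - P * Y - (A2 - P * ((n : ℝ) - Y - 1)) + (P - En.SS n) * (2 * Y - n + 1)|
      ≤ |A1 - P * Y| + |A2 - P * ((n : ℝ) - Y - 1)| + |(P - En.SS n) * (2 * Y - n + 1)| :=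
        (abs_add_le _ _).trans (add_le_add (abs_sub _ _) le_rfl)
    _ ≤ 3 * (Y : ℝ) ^ (999 / 1000 : ℝ) := by linarith
    _ ≤ _ := by nlinarith

end Pool.MP_dd84fd_nt.UM
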