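import Pool.Agent.Lib.MP_dd84fd_nt.L2G.ModelArith
import Pool.Agent.Lib.MP_dd84fd_nt.L2G.LocalCount
import Pool.Agent.Lib.MP_dd84fd_nt.En.Defs
import Pool.Agent.Lib.MP_dd84fd_nt.DivBound

/-!
# The truncated singular series over the `r` coprime to `q` (module G2-69)
-/

set_option autoImplicit false

namespace Pool.MP_dd84fd_nt.UM

open Finset Pool.MP_67663b_nt.Odd Pool.MP_dd84fd_nt Pool.MP_dd84fd_nt.L2G

/-! ### the Euler factors of the twin prime constant -/

private noncomputable def sgF (p : ℕ) : ℝ := 1 - 1 / ((p : ℝ) - 1) ^ 2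

private lemma sgF_bounds {p : ℕ} (hp : 2 < p) : 3 / 4 ≤ sgF p ∧ sgF p ≤ 1 := by
  have h3 : (3 : ℝ) ≤ p := by exact_mod_cast hp
  have h4 : (4 : ℝ) ≤ ((p : ℝ) - 1) ^ 2 := by nlinarith
  have h5 : 1 / ((p : ℝ) - 1) ^ 2 ≤ 1 / 4 := one_div_le_one_div_of_le (by norm_num) h4
  have h6 : 0 ≤ 1 / ((p : ℝ) - 1) ^ 2 := by positivity
  unfold sgF
  constructor <;> linarith

private lemma sg_summable :
    Summable (fun p : {p : ℕ // p.Prime ∧ 2 < p} => -(1 / (((p : ℕ) : ℝ) - 1) ^ 2)) := by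
  apply Summable.neg
  have h1 : Summable (fun n : ℕ => 4 * (1 / (n : ℝ) ^ 2)) :=
    (Real.summable_one_div_nat_pow.2 (by norm_num)).mul_left 4
  have h2 : Summable (fun p : {p : ℕ // p.Prime ∧ 2 < p} => 4 * (1 / ((p : ℕ) : ℝ) ^ 2)) :=
    h1.comp_injective Subtype.val_injective
  refine Summable.of_nonneg_of_le (fun p => by positivity) (fun p => ?_) h2
  have h3 : (3 : ℝ) ≤ (p : ℕ) := by exact_mod_cast p.2.2
  rw [mul_one_div, div_le_div_iff₀ (by nlinarith) (by positivity)]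
  nlinarith

private lemma sg_log_summable :
    Summable (fun p : {p : ℕ // p.Prime ∧ 2 < p} => Real.log (sgF p)) := by
  have := Real.summable_log_one_add_of_summable sg_summable
  refine this.congr (fun p => ?_)
  unfold sgF
  congr 1

private lemma sg_hasProd :
    HasProd (fun p : {p : ℕ // p.Prime ∧ 2 < p} => sgF p)
      (Real.exp (∑' p : {p : ℕ // p.Prime ∧ 2 < p}, Real.log (sgF p))) :=
  Real.hasProd_of_hasSum_log (fun p => by have := (sgF_bounds p.2.2).1; linarith)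
    sg_log_summable.hasSum

private lemma sg_C2_eq : En.C2 = Real.exp (∑' p : {p : ℕ // p.Prime ∧ 2 < p}, Real.log (sgF p)) :=
  sg_hasProd.tprod_eq

private noncomputable def sgP (w : ℕ) : ℝ := ∏ p ∈ (Icc 3 w).filter Nat.Prime, sgF p

private lemma sgP_pos (w : ℕ) : 0 < sgP w := by
  unfold sgP
  apply Finset.prod_pos
  intro p hp
  rw [mem_filter, mem_Icc] at hp
  have := (sgF_bounds (by omega : 2 < p)).1
  linarith

private lemma sgP_le_one (w : ℕ) : sgP w ≤ 1 := by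
  unfold sgP
  apply Finset.prod_le_one
  · intro p hp
    rw [mem_filter, mem_Icc] at hp
    have := (sgF_bounds (by omega : 2 < p)).1
    linarith
  · intro p hp
    rw [mem_filter, mem_Icc] at hp
    exact (sgF_bounds (by omega : 2 < p)).2

private lemma sgP_tendsto : Filter.Tendsto sgP Filter.atTop (nhds En.C2) := by
  have h1 : Filter.Tendsto (fun w : ℕ => (Icc 3 w).subtype (fun p => p.Prime ∧ 2 < p))
      Filter.atTop Filter.atTop := by
    apply Filter.tendsto_atTop_finset_of_monotone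
    · intro a b hab
      apply Finset.subtype_mono
      exact Finset.Icc_subset_Icc_right hab
    · intro x
      refine ⟨x, ?_⟩
      rw [Finset.mem_subtype, mem_Icc]
      exact ⟨x.2.2, le_rfl⟩
  have h2 : Filter.Tendsto (fun w : ℕ => ∏ p ∈ (Icc 3 w).subtype (fun p => p.Prime ∧ 2 < p),
      sgF p) Filter.atTop (nhds En.C2) := by
    have h3 : HasProd (fun p : {p : ℕ // p.Prime ∧ 2 < p} => sgF p) En.C2 := by
      rw [sg_C2_eq]; exact sg_hasProd
    have h4 : Filter.Tendsto (fun s : Finset {p : ℕ // p.Prime ∧ 2 < p} => ∏ p ∈ s, sgF p)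
        Filter.atTop (nhds En.C2) := h3
    exact h4.comp h1
  refine h2.congr (fun w => ?_)
  rw [Finset.prod_subtype_eq_prod_filter (fun p : ℕ => sgF p)]
  unfold sgP
  apply Finset.prod_congr _ (fun _ _ => rfl)
  ext p
  simp only [mem_filter, mem_Icc]
  constructor
  · rintro ⟨h, h2, _⟩; exact ⟨h, h2⟩
  · rintro ⟨h, h2⟩; exact ⟨h, h2, by omega⟩

private lemma sgP_anti : Antitone sgP := by
  intro a b hab
  unfold sgP
  have hsub : (Icc 3 a).filter Nat.Prime ⊆ (Icc 3 b).filter Nat.Prime :=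
    Finset.filter_subset_filter _ (Finset.Icc_subset_Icc_right hab)
  rw [← Finset.prod_sdiff hsub]
  have h1 : ∏ p ∈ ((Icc 3 b).filter Nat.Prime) \ ((Icc 3 a).filter Nat.Prime), sgF p ≤ 1 := by
    apply Finset.prod_le_one
    · intro p hp
      rw [mem_sdiff, mem_filter, mem_Icc] at hp
      have := (sgF_bounds (by omega : 2 < p)).1
      linarith
    · intro p hp
      rw [mem_sdiff, mem_filter, mem_Icc] at hp
      exact (sgF_bounds (by omega : 2 < p)).2
  have h2 := (sgP_pos a).le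
  unfold sgP at h2
  nlinarith

private lemma sg_C2_le (w : ℕ) : En.C2 ≤ sgP w := sgP_anti.le_of_tendsto sgP_tendsto w

private lemma sgP_step (w : ℕ) (hw : 2 ≤ w) :
    sgP w * (((w : ℝ) - 1) / w) ≤ sgP (w + 1) * (((w + 1 : ℕ) : ℝ) - 1) / ((w + 1 : ℕ) : ℝ) := by
  have h2 : (2 : ℝ) ≤ w := by exact_mod_cast hw
  have h1 : sgP w * (1 - 1 / (w : ℝ) ^ 2) ≤ sgP (w + 1) := by
    have e : (Icc 3 (w + 1)) = insert (w + 1) (Icc 3 w) := by
      ext x
      simp only [mem_Icc, mem_insert]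
      omega
    have hpos := sgP_pos w
    by_cases hp : (w + 1).Prime
    · have e2 : sgP (w + 1) = sgF (w + 1) * sgP w := by
        unfold sgP
        rw [e, Finset.filter_insert, if_pos hp, Finset.prod_insert]
        simp
      rw [e2]
      unfold sgF
      push_cast
      have e3 : (w : ℝ) + 1 - 1 = w := by ring
      rw [e3, mul_comm]
    · have e2 : sgP (w + 1) = sgP w := by
        unfold sgP
        rw [e, Finset.filter_insert, if_neg hp]
      rw [e2]
      have : 0 ≤ 1 / (w : ℝ) ^ 2 := by positivity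
      nlinarith
  push_cast
  have h3 : (w : ℝ) + 1 - 1 = w := by ring
  rw [h3, le_div_iff₀ (by positivity)]
  have h4 : sgP w * (((w : ℝ) - 1) / w) * ((w : ℝ) + 1) = sgP w * (1 - 1 / (w : ℝ) ^ 2) * w := by
    field_simp
    ring
  rw [h4]
  exact mul_le_mul_of_nonneg_right h1 (by positivity)

private lemma sgP_mono (w : ℕ) (hw : 2 ≤ w) (k : ℕ) :
    sgP w * (((w : ℝ) - 1) / w) ≤ sgP (w + k) * ((((w + k : ℕ) : ℝ) - 1) / ((w + k : ℕ) : ℝ)) := by
  induction k with
  | zero => simp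
  | succ k ih =>
    refine ih.trans ((sgP_step (w + k) (by omega)).trans (le_of_eq ?_))
    rw [mul_div_assoc]
    rfl

private lemma sgP_le (w : ℕ) (hw : 2 ≤ w) : sgP w * (1 - 1 / (w : ℝ)) ≤ En.C2 := by
  have h0 : (0 : ℝ) < w := by
    have : 0 < w := by omega
    exact_mod_cast this
  have h1 : ∀ k : ℕ, sgP w * (1 - 1 / (w : ℝ)) ≤ sgP (k + w) := by
    intro k
    have h2 := sgP_mono w hw k
    have h3 : ((w : ℝ) - 1) / w = 1 - 1 / (w : ℝ) := by field_simp
    rw [h3] at h2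
    refine h2.trans ?_
    rw [add_comm w k]
    have h4 : (((k + w : ℕ) : ℝ) - 1) / ((k + w : ℕ) : ℝ) ≤ 1 := by
      rw [div_le_one (by push_cast; positivity)]
      linarith
    have h5 := sgP_pos (k + w)
    nlinarith
  exact ge_of_tendsto' (sgP_tendsto.comp (Filter.tendsto_add_atTop_nat w)) h1

/-! ### the terms of the singular series -/

private noncomputable def sgG (n r : ℕ) : ℝ :=
  ((ArithmeticFunction.moebius r : ℤ) : ℝ) ^ 2 / (Nat.totient r : ℝ) ^ 2 * cn r n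

private lemma sgG_one (n : ℕ) : sgG n 1 = 1 := by
  unfold sgG cn
  simp

private lemma sgG_mul {r s : ℕ} (n : ℕ) (h : Nat.Coprime r s) :
    sgG n (r * s) = sgG n r * sgG n s := by
  unfold sgG
  rw [cn_mul r s n h, ArithmeticFunction.isMultiplicative_moebius.map_mul_of_coprime h,
    Nat.totient_mul h]
  push_cast
  by_cases h1 : (Nat.totient r : ℝ) = 0
  · rw [h1]; simp
  by_cases h2 : (Nat.totient s : ℝ) = 0
  · rw [h2]; simp
  field_simp

private lemma sgG_prime {p : ℕ} (hp : p.Prime) (n : ℕ) :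
    sgG n p = if p ∣ n then 1 / ((p : ℝ) - 1) else -(1 / ((p : ℝ) - 1) ^ 2) := by
  have h2 : (2 : ℝ) ≤ p := by exact_mod_cast hp.two_le
  have h1 : (p : ℝ) - 1 ≠ 0 := by linarith
  unfold sgG
  rw [cn_prime p n hp, ArithmeticFunction.moebius_apply_prime hp, Nat.totient_prime hp,
    Nat.cast_sub hp.one_le]
  split_ifs
  · push_cast
    field_simp
  · push_cast
    field_simp

private lemma sgG_prod (n : ℕ) (T : Finset ℕ) (hT : ∀ p ∈ T, p.Prime) :
    sgG n (∏ p ∈ T, p) = ∏ p ∈ T, sgG n p := by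
  classical
  induction T using Finset.induction_on with
  | empty => simp [sgG_one]
  | insert p T hp ih =>
    rw [Finset.prod_insert hp, Finset.prod_insert hp, sgG_mul, ih]
    · intro x hx
      exact hT x (Finset.mem_insert_of_mem hx)
    · refine Nat.Coprime.prod_right fun x hx => ?_
      rw [Nat.coprime_primes (hT p (Finset.mem_insert_self _ _))
        (hT x (Finset.mem_insert_of_mem hx))]
      rintro rfl
      exact hp hx

/-- the primes up to `X` which do not divide `q` -/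
private def sgS (X q : ℕ) : Finset ℕ := (Icc 1 X).filter (fun p => p.Prime ∧ ¬ p ∣ q)

private lemma sg_SR (X R q n : ℕ) (hR : R ≤ X) :
    SR R q n = ∑ T ∈ (sgS X q).powerset.filter (fun T => ∏ p ∈ T, p ≤ R), ∏ p ∈ T, sgG n p := by
  classical
  have h1 : SR R q n = ∑ r ∈ (Icc 1 R).filter (fun r => Nat.Coprime r q ∧ Squarefree r),
      sgG n r := by
    unfold SR
    have e : (Icc 1 R).filter (fun r => Nat.Coprime r q ∧ Squarefree r) =
        ((Icc 1 R).filter (fun r => Nat.Coprime r q)).filter Squarefree := by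
      rw [Finset.filter_filter]
    rw [e, Finset.sum_filter Squarefree (sgG n)]
    refine Finset.sum_congr rfl fun r _ => ?_
    split_ifs with hs
    · rfl
    · rw [ArithmeticFunction.moebius_eq_zero_of_not_squarefree hs]
      simp
  rw [h1]
  refine Finset.sum_bij' (fun r _ => r.primeFactors) (fun T _ => ∏ p ∈ T, p) ?_ ?_ ?_ ?_ ?_
  · intro r hr
    rw [mem_filter, mem_Icc] at hr
    rw [mem_filter, mem_powerset, Nat.prod_primeFactors_of_squarefree hr.2.2]
    refine ⟨fun p hp => ?_, hr.1.2⟩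
    have hpp := Nat.prime_of_mem_primeFactors hp
    have hpr := Nat.dvd_of_mem_primeFactors hp
    unfold sgS
    rw [mem_filter, mem_Icc]
    refine ⟨⟨hpp.one_le, ((Nat.le_of_dvd (by omega) hpr).trans hr.1.2).trans hR⟩, hpp, fun hq => ?_⟩
    have := Nat.dvd_gcd hpr hq
    rw [hr.2.1] at this
    exact hpp.one_lt.ne' (Nat.dvd_one.mp this)
  · intro T hT
    rw [mem_filter, mem_powerset] at hT
    have hTp : ∀ p ∈ T, p.Prime ∧ ¬ p ∣ q := fun p hp => (mem_filter.1 (hT.1 hp)).2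
    rw [mem_filter, mem_Icc]
    refine ⟨⟨Finset.prod_pos fun p hp => (hTp p hp).1.pos, hT.2⟩, ?_, ?_⟩
    · exact Nat.Coprime.prod_left fun p hp => ((hTp p hp).1.coprime_iff_not_dvd).2 (hTp p hp).2
    · refine Finset.squarefree_prod_of_pairwise_isCoprime ?_ fun p hp => (hTp p hp).1.squarefree
      intro a ha b hb hab
      exact Nat.coprime_iff_isRelPrime.1 ((Nat.coprime_primes (hTp a ha).1 (hTp b hb).1).2 hab)
  · intro r hr
    rw [mem_filter] at hr
    exact Nat.prod_primeFactors_of_squarefree hr.2.2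
  · intro T hT
    rw [mem_filter, mem_powerset] at hT
    exact Nat.primeFactors_prod fun p hp => (mem_filter.1 (hT.1 hp)).2.1
  · intro r hr
    rw [mem_filter] at hr
    rw [← sgG_prod n r.primeFactors fun p hp => Nat.prime_of_mem_primeFactors hp,
      Nat.prod_primeFactors_of_squarefree hr.2.2]

private lemma sg_F (X q n : ℕ) :
    ∏ p ∈ sgS X q, (1 + sgG n p) = ∑ T ∈ (sgS X q).powerset, ∏ p ∈ T, sgG n p := by
  classical
  exact Finset.prod_one_add _

/-- the tail of the singular series -/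
private lemma sg_tail (X R q n : ℕ) (hR : R ≤ X) (c : ℝ) (hc : 0 < c)
    (hcR : ∀ m : ℕ, R < m → c ≤ Real.sqrt m) :
    |∏ p ∈ sgS X q, (1 + sgG n p) - SR R q n| ≤
      (1 / c) * ∏ p ∈ sgS X q, (1 + Real.sqrt p * |sgG n p|) := by
  classical
  rw [sg_F, sg_SR X R q n hR, ← Finset.sum_filter_add_sum_filter_not (sgS X q).powerset
    (fun T => ∏ p ∈ T, p ≤ R), add_sub_cancel_left, Finset.prod_one_add, Finset.mul_sum]
  refine (Finset.abs_sum_le_sum_abs _ _).trans ?_
  refine (Finset.sum_le_sum (g := fun T : Finset ℕ => (1 / c) * ∏ p ∈ T, (Real.sqrt p * |sgG n p|))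
    fun T hT => ?_).trans ?_
  · rw [mem_filter, not_le] at hT
    have h1 := hcR _ hT.2
    rw [Finset.abs_prod, Finset.prod_mul_distrib]
    have h2 : Real.sqrt ((∏ p ∈ T, p : ℕ) : ℝ) = ∏ p ∈ T, Real.sqrt (p : ℝ) := by
      push_cast
      rw [Real.sqrt_eq_rpow, ← Real.finsetProd_rpow _ _ (fun i _ => by positivity)]
      refine Finset.prod_congr rfl fun p _ => ?_
      rw [Real.sqrt_eq_rpow]
    rw [h2] at h1
    have h3 : 0 ≤ ∏ p ∈ T, |sgG n p| := Finset.prod_nonneg fun p _ => abs_nonneg _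
    calc ∏ p ∈ T, |sgG n p| = (1 / c) * (c * ∏ p ∈ T, |sgG n p|) := by field_simp
      _ ≤ (1 / c) * ((∏ p ∈ T, Real.sqrt (p : ℝ)) * ∏ p ∈ T, |sgG n p|) := by
          refine mul_le_mul_of_nonneg_left ?_ (by positivity)
          exact mul_le_mul_of_nonneg_right h1 h3
  · refine Finset.sum_le_sum_of_subset_of_nonneg (Finset.filter_subset _ _) fun T _ _ => ?_
    exact mul_nonneg (by positivity) (Finset.prod_nonneg fun p _ => by positivity)

/-- the local factor -/
private noncomputable def sgL (n p : ℕ) : ℝ :=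
  if p ∣ n then (p : ℝ) / (p - 1) else 1 - 1 / ((p : ℝ) - 1) ^ 2

private lemma sg_local {p : ℕ} (hp : p.Prime) (n : ℕ) : 1 + sgG n p = sgL n p := by
  have h2 : (2 : ℝ) ≤ p := by exact_mod_cast hp.two_le
  have h1 : (p : ℝ) - 1 ≠ 0 := by linarith
  rw [sgG_prime hp n]
  unfold sgL
  split_ifs
  · field_simp
    ring
  · ring

private lemma sg_euler (X q n : ℕ) (hX : 2 ≤ X) (hq1 : 1 ≤ q) (hq : q ≤ X) (hn : 1 ≤ n)
    (hnX : n ≤ X) (he : Even n) :
    (∏ p ∈ q.primeFactors, sgL n p) * ∏ p ∈ sgS X q, (1 + sgG n p) = 2 * sgP X *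
      ∏ p ∈ n.primeFactors.filter (fun p => 2 < p), ((p : ℝ) - 1) / ((p : ℝ) - 2) := by
  classical
  have h1 : ∏ p ∈ sgS X q, (1 + sgG n p) = ∏ p ∈ sgS X q, sgL n p :=
    Finset.prod_congr rfl fun p hp => sg_local (mem_filter.1 hp).2.1 n
  have hdisj : Disjoint q.primeFactors (sgS X q) := by
    rw [Finset.disjoint_left]
    intro p hp hp'
    exact (mem_filter.1 hp').2.2 (Nat.dvd_of_mem_primeFactors hp)
  have hunion : q.primeFactors ∪ sgS X q = insert 2 ((Icc 3 X).filter Nat.Prime) := by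
    ext p
    simp only [mem_union, mem_insert, mem_filter, mem_Icc, sgS, Nat.mem_primeFactors]
    constructor
    · rintro (⟨hp, hpq, _⟩ | ⟨⟨_, hpX⟩, hp, _⟩)
      · have h2 := hp.two_le
        have h3 : p ≤ X := (Nat.le_of_dvd (by omega) hpq).trans hq
        by_cases h : p = 2
        · exact Or.inl h
        · exact Or.inr ⟨⟨by omega, h3⟩, hp⟩
      · have h2 := hp.two_le
        by_cases h : p = 2
        · exact Or.inl h
        · exact Or.inr ⟨⟨by omega, hpX⟩, hp⟩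
    · intro h
      have hpp : p.Prime ∧ 1 ≤ p ∧ p ≤ X := by
        rcases h with rfl | ⟨⟨h3, h4⟩, hp⟩
        · exact ⟨Nat.prime_two, by norm_num, hX⟩
        · exact ⟨hp, by omega, h4⟩
      by_cases hpq : p ∣ q
      · exact Or.inl ⟨hpp.1, hpq, by omega⟩
      · exact Or.inr ⟨hpp.2, hpp.1, hpq⟩
  have h2n : 2 ∣ n := he.two_dvd
  rw [h1, ← Finset.prod_union hdisj, hunion, Finset.prod_insert (by simp)]
  have hL2 : sgL n 2 = 2 := by
    unfold sgL
    rw [if_pos h2n]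
    norm_num
  rw [hL2, mul_assoc]
  congr 1
  have h3 : ∀ p ∈ (Icc 3 X).filter Nat.Prime, sgL n p =
      sgF p * (if p ∣ n then ((p : ℝ) - 1) / ((p : ℝ) - 2) else 1) := by
    intro p hp
    rw [mem_filter, mem_Icc] at hp
    have h3 : (3 : ℝ) ≤ p := by exact_mod_cast hp.1.1
    have e1 : (p : ℝ) - 1 ≠ 0 := by linarith
    have e2 : (p : ℝ) - 2 ≠ 0 := by linarith
    unfold sgL sgF
    split_ifs
    · field_simp
      ring
    · ring
  rw [Finset.prod_congr rfl h3, Finset.prod_mul_distrib]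
  congr 1
  rw [← Finset.prod_filter]
  refine Finset.prod_congr ?_ fun _ _ => rfl
  ext p
  simp only [mem_filter, mem_Icc, Nat.mem_primeFactors]
  constructor
  · rintro ⟨⟨⟨h3, h4⟩, hp⟩, hpn⟩
    exact ⟨⟨hp, hpn, by omega⟩, by omega⟩
  · rintro ⟨⟨hp, hpn, _⟩, h2p⟩
    exact ⟨⟨⟨by omega, (Nat.le_of_dvd (by omega) hpn).trans hnX⟩, hp⟩, hpn⟩

private lemma sg_two_pow (n : ℕ) (hn : n ≠ 0) : (2 : ℝ) ^ n.primeFactors.card ≤ n.divisors.card := by
  have h : 2 ^ n.primeFactors.card ≤ n.divisors.card := by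
    rw [Nat.card_divisors hn, ← Finset.prod_const]
    refine Finset.prod_le_prod' fun p hp => ?_
    have : 1 ≤ n.factorization p :=
      (Nat.prime_of_mem_primeFactors hp).factorization_pos_of_dvd hn
        (Nat.dvd_of_mem_primeFactors hp)
    omega
  exact_mod_cast h

/-- the Euler product of the tail -/
private lemma sg_tail_prod : ∃ C : ℝ, 0 < C ∧ ∀ X q n : ℕ, 1 ≤ n →
    ∏ p ∈ sgS X q, (1 + Real.sqrt p * |sgG n p|) ≤ C * (n.divisors.card : ℝ) ^ 2 := by
  classical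
  have hsum : Summable (fun m : ℕ => 4 * (1 / (m : ℝ) ^ (3 / 2 : ℝ))) :=
    (Real.summable_one_div_nat_rpow.2 (by norm_num)).mul_left 4
  refine ⟨Real.exp (∑' m : ℕ, 4 * (1 / (m : ℝ) ^ (3 / 2 : ℝ))), Real.exp_pos _,
    fun X q n hn => ?_⟩
  have hn0 : n ≠ 0 := by omega
  have hfac : ∀ p ∈ sgS X q, 1 + Real.sqrt p * |sgG n p| ≤
      (if p ∣ n then 4 else 1) * Real.exp (4 * (1 / (p : ℝ) ^ (3 / 2 : ℝ))) := by
    intro p hp
    have hpp := (mem_filter.1 hp).2.1
    have h2 : (2 : ℝ) ≤ p := by exact_mod_cast hpp.two_le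
    have hp0 : (0 : ℝ) < p := by linarith
    have hs1 : 1 ≤ Real.sqrt p := by
      rw [Real.one_le_sqrt]
      linarith
    have hs2 : Real.sqrt p * Real.sqrt p = p := Real.mul_self_sqrt hp0.le
    have hexp1 : 1 ≤ Real.exp (4 * (1 / (p : ℝ) ^ (3 / 2 : ℝ))) :=
      Real.one_le_exp (by positivity)
    rw [sgG_prime hpp n]
    split_ifs with hpn
    · have h3 : |1 / ((p : ℝ) - 1)| = 1 / ((p : ℝ) - 1) :=
        abs_of_nonneg (div_nonneg zero_le_one (by linarith))
      rw [h3]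
      have h4 : Real.sqrt p * (1 / ((p : ℝ) - 1)) ≤ 3 := by
        rw [mul_one_div, div_le_iff₀ (by linarith)]
        have h5 : Real.sqrt p ≤ p := by nlinarith
        linarith
      nlinarith
    · rw [abs_neg, one_mul]
      have h3 : |1 / ((p : ℝ) - 1) ^ 2| = 1 / ((p : ℝ) - 1) ^ 2 :=
        abs_of_nonneg (div_nonneg zero_le_one (sq_nonneg _))
      rw [h3]
      have h4 : Real.sqrt p * (1 / ((p : ℝ) - 1) ^ 2) ≤ 4 * (1 / (p : ℝ) ^ (3 / 2 : ℝ)) := by
        have h5 : (p : ℝ) ^ (3 / 2 : ℝ) = p * Real.sqrt p := by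
          rw [Real.sqrt_eq_rpow]
          nth_rewrite 2 [← Real.rpow_one (p : ℝ)]
          rw [← Real.rpow_add hp0]
          norm_num
        rw [h5, mul_one_div, mul_one_div, div_le_div_iff₀ (by nlinarith) (by positivity)]
        have h6 : Real.sqrt p * (p * Real.sqrt p) = (p : ℝ) ^ 2 := by
          calc Real.sqrt p * (p * Real.sqrt p) = p * (Real.sqrt p * Real.sqrt p) := by ring
            _ = (p : ℝ) ^ 2 := by rw [hs2]; ring
        rw [h6]
        nlinarith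
      have h5 := Real.add_one_le_exp (4 * (1 / (p : ℝ) ^ (3 / 2 : ℝ)))
      linarith
  have h1 := Finset.prod_le_prod (s := sgS X q) (fun p _ => by positivity) hfac
  refine h1.trans ?_
  rw [Finset.prod_mul_distrib, ← Real.exp_sum, mul_comm]
  have h2 : Real.exp (∑ p ∈ sgS X q, 4 * (1 / (p : ℝ) ^ (3 / 2 : ℝ))) ≤
      Real.exp (∑' m : ℕ, 4 * (1 / (m : ℝ) ^ (3 / 2 : ℝ))) :=
    Real.exp_le_exp.2 (hsum.sum_le_tsum _ fun m _ => by positivity)
  have h3 : ∏ p ∈ sgS X q, (if p ∣ n then (4 : ℝ) else 1) ≤ (n.divisors.card : ℝ) ^ 2 := by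
    rw [Finset.prod_ite, Finset.prod_const_one, mul_one, Finset.prod_const]
    have h4 : ((sgS X q).filter (fun p => p ∣ n)).card ≤ n.primeFactors.card := by
      refine Finset.card_le_card fun p hp => ?_
      rw [mem_filter] at hp
      exact Nat.mem_primeFactors.2 ⟨(mem_filter.1 hp.1).2.1, hp.2, hn0⟩
    calc (4 : ℝ) ^ ((sgS X q).filter (fun p => p ∣ n)).card ≤ 4 ^ n.primeFactors.card :=
          pow_le_pow_right₀ (by norm_num) h4
      _ = (2 ^ n.primeFactors.card) ^ 2 := by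
          rw [← pow_mul, mul_comm, pow_mul]; norm_num
      _ ≤ (n.divisors.card : ℝ) ^ 2 := pow_le_pow_left₀ (by positivity) (sg_two_pow n hn0) 2
  exact mul_le_mul h2 h3 (Finset.prod_nonneg fun p _ => by split_ifs <;> norm_num)
    (Real.exp_pos _).le

private lemma sg_ratio_prod (n : ℕ) (hn : 1 ≤ n) :
    0 ≤ ∏ p ∈ n.primeFactors.filter (fun p => 2 < p), ((p : ℝ) - 1) / ((p : ℝ) - 2) ∧
    ∏ p ∈ n.primeFactors.filter (fun p => 2 < p), ((p : ℝ) - 1) / ((p : ℝ) - 2) ≤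
      n.divisors.card := by
  have hn0 : n ≠ 0 := by omega
  have h0 : ∀ p ∈ n.primeFactors.filter (fun p => 2 < p),
      0 ≤ ((p : ℝ) - 1) / ((p : ℝ) - 2) ∧ ((p : ℝ) - 1) / ((p : ℝ) - 2) ≤ 2 := by
    intro p hp
    have h2 : 2 < p := (mem_filter.1 hp).2
    have h3 : (3 : ℝ) ≤ p := by exact_mod_cast h2
    refine ⟨div_nonneg (by linarith) (by linarith), ?_⟩
    rw [div_le_iff₀ (by linarith)]
    linarith
  refine ⟨Finset.prod_nonneg fun p hp => (h0 p hp).1, ?_⟩
  refine (Finset.prod_le_prod (fun p hp => (h0 p hp).1) fun p hp => (h0 p hp).2).trans ?_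
  rw [Finset.prod_const]
  refine le_trans ?_ (sg_two_pow n hn0)
  exact pow_le_pow_right₀ (by norm_num) (Finset.card_le_card (Finset.filter_subset _ _))

private lemma sg_Nc_le (q : ℕ) [NeZero q] (a : ZMod q) : Nc q a ≤ Nat.totient q := by
  classical
  unfold Nc
  have h1 : univ.filter (fun b : ZMod q => IsUnit b ∧ IsUnit (a - b)) ⊆
      (univ : Finset (ZMod q)ˣ).image Units.val := by
    intro b hb
    rw [mem_filter] at hb
    obtain ⟨u, hu⟩ := hb.2.1
    exact Finset.mem_image.2 ⟨u, mem_univ _, hu⟩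
  refine (Finset.card_le_card h1).trans ?_
  refine Finset.card_image_le.trans ?_
  rw [Finset.card_univ, ZMod.card_units_eq_totient]

theorem sing_serw : ∃ X0 : ℕ, ∀ X : ℕ, X0 ≤ X → ∀ R : ℕ, (X : ℝ) ^ (1 / 100 : ℝ) ≤ R → R ≤ X →
    ∀ (q : ℕ) [NeZero q], q ≤ X → ∀ n : ℕ, 1 ≤ n → n ≤ X → Even n →
    |(q : ℝ) * (Nc q (n : ZMod q) : ℝ) / (Nat.totient q : ℝ) ^ 2 * SR R q n -
      Pool.MP_dd84fd_nt.En.SS n| ≤ (X : ℝ) ^ (-(1 / 1000) : ℝ) := by
  obtain ⟨C1, hC1, htail⟩ := sg_tail_prod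
  obtain ⟨D, hD1, hD⟩ := Pool.Agent.Lib.MP_dd84fd_nt.DivBound.div_bound 1000
  obtain ⟨K, hK⟩ : ∃ K : ℝ, K = 2002 * C1 * (D : ℝ) ^ 2 + 2 * D + 1 := ⟨_, rfl⟩
  have hD1' : (1 : ℝ) ≤ D := by exact_mod_cast hD1
  have hK1 : 1 ≤ K := by rw [hK]; nlinarith [mul_pos hC1 (by positivity : (0 : ℝ) < (D : ℝ) ^ 2)]
  refine ⟨⌈K ^ 1000⌉₊ + 2, fun X hX R hRlow hRle q _ hqX n hn hnX he => ?_⟩
  have hX2 : 2 ≤ X := by omega
  have hXR : K ^ 1000 ≤ (X : ℝ) := by
    refine (Nat.le_ceil _).trans ?_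
    exact_mod_cast (by omega : ⌈K ^ 1000⌉₊ ≤ X)
  have hX0 : (0 : ℝ) < X := by
    have : 0 < X := by omega
    exact_mod_cast this
  obtain ⟨x, hx⟩ : ∃ x : ℝ, x = (X : ℝ) ^ (1 / 1000 : ℝ) := ⟨_, rfl⟩
  have hxpow : ∀ k : ℕ, x ^ k = (X : ℝ) ^ ((k : ℝ) / 1000) := by
    intro k
    rw [hx, ← Real.rpow_natCast, ← Real.rpow_mul hX0.le]
    congr 1
    ring
  have hx1000 : x ^ 1000 = (X : ℝ) := by
    rw [hxpow 1000]
    norm_num
  have hx0 : 0 ≤ x := by rw [hx]; positivity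
  have hxK : K ≤ x := by
    by_contra hlt
    push Not at hlt
    have h1 := pow_lt_pow_left₀ hlt hx0 (by norm_num : 1000 ≠ 0)
    rw [hx1000] at h1
    linarith
  have hx1 : 1 ≤ x := hK1.trans hxK
  have hxp : 0 < x := by linarith
  -- the divisor function
  obtain ⟨T, hT⟩ : ∃ T : ℝ, T = (n.divisors.card : ℝ) := ⟨_, rfl⟩
  have hTx : T ≤ D * x := by
    have h1 : T ^ 1000 ≤ D * X := by
      rw [hT]
      have h2 := hD n (by omega)
      calc ((n.divisors.card : ℝ)) ^ 1000 ≤ ((D * n : ℕ) : ℝ) := by exact_mod_cast h2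
        _ = D * n := by push_cast; ring
        _ ≤ D * X := mul_le_mul_of_nonneg_left (by exact_mod_cast hnX) (by linarith)
    have h2 : T ^ 1000 ≤ (D * x) ^ 1000 := by
      rw [mul_pow, hx1000]
      refine h1.trans (mul_le_mul_of_nonneg_right ?_ hX0.le)
      exact le_self_pow₀ hD1' (by norm_num)
    exact le_of_pow_le_pow_left₀ (by norm_num) (by positivity) h2
  have hT0 : 0 ≤ T := by rw [hT]; positivity
  -- the prefactor
  have hq1 : 1 ≤ q := Nat.one_le_iff_ne_zero.2 (NeZero.ne q)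
  have hφ : (0 : ℝ) < Nat.totient q := by exact_mod_cast Nat.totient_pos.2 hq1
  obtain ⟨Pf, hPf⟩ : ∃ Pf : ℝ,
      Pf = (q : ℝ) * (Nc q (n : ZMod q) : ℝ) / (Nat.totient q : ℝ) ^ 2 := ⟨_, rfl⟩
  have hPf0 : 0 ≤ Pf := by rw [hPf]; positivity
  have hPf1 : Pf ≤ 2002 * x := by
    have h1 : Pf ≤ (q : ℝ) / Nat.totient q := by
      rw [hPf, div_le_div_iff₀ (by positivity) hφ]
      have h2 : (Nc q (n : ZMod q) : ℝ) ≤ Nat.totient q := by exact_mod_cast sg_Nc_le q _
      have h3 : 0 ≤ (q : ℝ) * (Nat.totient q : ℝ) := by positivity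
      nlinarith [mul_le_mul_of_nonneg_left h2 h3]
    have h2 : (q : ℝ) / Nat.totient q ≤ 2 + 2 * Real.log q := by
      rw [div_le_iff₀ hφ, mul_comm]
      exact totient_lower q hq1
    have h3 : Real.log q ≤ 1000 * x := by
      have h4 : Real.log q ≤ Real.log X :=
        Real.log_le_log (by exact_mod_cast hq1) (by exact_mod_cast hqX)
      have h5 : Real.log X = 1000 * Real.log x := by
        rw [← hx1000, Real.log_pow]
        norm_num
      have h6 := Real.log_le_sub_one_of_pos hxp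
      linarith
    linarith
  -- the tail
  have hcR : ∀ m : ℕ, R < m → x ^ 5 ≤ Real.sqrt m := by
    intro m hm
    have h1 : (X : ℝ) ^ (1 / 100 : ℝ) = x ^ 10 := by rw [hxpow 10]; norm_num
    rw [h1] at hRlow
    have hm' : (R : ℝ) ≤ m := by exact_mod_cast hm.le
    apply Real.le_sqrt_of_sq_le
    calc (x ^ 5) ^ 2 = x ^ 10 := by ring
      _ ≤ (m : ℝ) := hRlow.trans hm'
  have htl := sg_tail X R q n hRle (x ^ 5) (by positivity) hcR
  have htl2 : |∏ p ∈ sgS X q, (1 + sgG n p) - SR R q n| ≤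
      (1 / x ^ 5) * (C1 * (D * x) ^ 2) := by
    refine htl.trans (mul_le_mul_of_nonneg_left ((htail X q n hn).trans ?_) (by positivity))
    rw [← hT]
    exact mul_le_mul_of_nonneg_left (pow_le_pow_left₀ hT0 hTx 2) hC1.le
  -- the main term
  have hPfP : Pf = ∏ p ∈ q.primeFactors, sgL n p := by
    rw [hPf]
    exact Nc_prod q n
  have hmain := sg_euler X q n hX2 hq1 hqX hn hnX he
  rw [← hPfP] at hmain
  obtain ⟨hPi0, hPi1⟩ := sg_ratio_prod n hn
  have hSS : En.SS n = 2 * En.C2 *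
      ∏ p ∈ n.primeFactors.filter (fun p => 2 < p), ((p : ℝ) - 1) / ((p : ℝ) - 2) := rfl
  rw [← hPf, hSS]
  obtain ⟨Pi, hPi⟩ : ∃ Pi : ℝ,
      Pi = ∏ p ∈ n.primeFactors.filter (fun p => 2 < p), ((p : ℝ) - 1) / ((p : ℝ) - 2) := ⟨_, rfl⟩
  rw [← hPi] at hPi0 hPi1 hmain ⊢
  rw [← hT] at hPi1
  obtain ⟨F, hF⟩ : ∃ F : ℝ, F = ∏ p ∈ sgS X q, (1 + sgG n p) := ⟨_, rfl⟩
  rw [← hF] at hmain htl2
  have hC2a := sgP_le X hX2
  have hC2b := sg_C2_le X
  have hP1 := sgP_le_one X
  have hPpos := sgP_pos X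
  have e1 : Pf * SR R q n - 2 * En.C2 * Pi =
      -(Pf * (F - SR R q n)) + 2 * Pi * (sgP X - En.C2) := by
    linear_combination hmain
  rw [e1]
  refine (abs_add_le _ _).trans ?_
  rw [abs_neg, abs_mul, abs_of_nonneg hPf0, abs_mul, abs_of_nonneg (by positivity : 0 ≤ 2 * Pi),
    abs_of_nonneg (by linarith : 0 ≤ sgP X - En.C2)]
  have hA : Pf * |F - SR R q n| ≤ (2002 * x) * ((1 / x ^ 5) * (C1 * (D * x) ^ 2)) :=
    mul_le_mul hPf1 htl2 (abs_nonneg _) (by positivity)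
  have hB : 2 * Pi * (sgP X - En.C2) ≤ 2 * (D * x) * (1 / x ^ 5) := by
    refine mul_le_mul (by linarith) ?_ (by linarith) (by positivity)
    have h1 : sgP X - En.C2 ≤ 1 / (X : ℝ) := by
      have h2 : sgP X * (1 - 1 / (X : ℝ)) = sgP X - sgP X * (1 / X) := by ring
      have h3 : sgP X * (1 / (X : ℝ)) ≤ 1 * (1 / X) :=
        mul_le_mul_of_nonneg_right hP1 (by positivity)
      linarith
    refine h1.trans (one_div_le_one_div_of_le (by positivity) ?_)
    rw [← hx1000]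
    exact pow_le_pow_right₀ hx1 (by norm_num)
  have hfin : (X : ℝ) ^ (-(1 / 1000) : ℝ) = 1 / x := by
    rw [Real.rpow_neg hX0.le, hx]
    exact (one_div _).symm
  rw [hfin]
  have hC : (2002 * x) * ((1 / x ^ 5) * (C1 * (D * x) ^ 2)) + 2 * (D * x) * (1 / x ^ 5) =
      (2002 * C1 * (D : ℝ) ^ 2 * x ^ 3 + 2 * D * x) * (1 / x ^ 5) := by ring
  have hDd : 2002 * C1 * (D : ℝ) ^ 2 * x ^ 3 + 2 * D * x ≤ x ^ 4 := by
    have h1 : x ≤ x ^ 3 := le_self_pow₀ hx1 (by norm_num)
    have h2 : 2 * (D : ℝ) * x ≤ 2 * D * x ^ 3 := mul_le_mul_of_nonneg_left h1 (by positivity)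
    have h3 : 2002 * C1 * (D : ℝ) ^ 2 * x ^ 3 + 2 * D * x ^ 3 ≤ K * x ^ 3 := by
      rw [hK]
      have : 0 ≤ x ^ 3 := by positivity
      nlinarith
    have h4 : K * x ^ 3 ≤ x * x ^ 3 := mul_le_mul_of_nonneg_right hxK (by positivity)
    have h5 : x * x ^ 3 = x ^ 4 := by ring
    linarith
  have hE : x ^ 4 * (1 / x ^ 5) ≤ 1 / x := by
    refine le_of_eq ?_
    field_simp
  have hFf := mul_le_mul_of_nonneg_right hDd (by positivity : (0 : ℝ) ≤ 1 / x ^ 5)
  linarith

end Pool.MP_dd84fd_nt.UM
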